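import Mathlib

/-!
# Block CW-8: two of `n` nonzero vectors make an angle at most `2 π / n`

Pigeonhole principle. Let `n ≥ 2`, `v : Fin n → ℂ` nonzero. Put
`a i = arg (v i / v 0)` reduced to `[0, 2 π)` (for instance `toIcoMod`, or
`Complex.arg` plus `2 π` if negative), so `v i / v 0 = ‖v i / v 0‖ exp (I a i)`, `a 0 = 0`, and
`f i = ⌊n a i / (2 π)⌋ ∈ {0, …, n - 1}`. If `f` is not injective, two indices `i ≠ j` have
`|a i - a j| < 2 π / n ≤ π` and `Re (v i conj (v j)) = ‖v i‖ ‖v j‖ cos (a i - a j) ≥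
‖v i‖ ‖v j‖ cos (2 π / n)`. If `f` is injective, it is surjective onto `{0, …, n - 1}`, and some
`i` has `f i = n - 1`, `i ≠ 0` as `f 0 = 0 ≠ n - 1`; then `a i ∈ [2 π - 2 π / n, 2 π)` and
`Re (v i conj (v 0)) = ‖v i‖ ‖v 0‖ cos (2 π - a i) ≥ ‖v i‖ ‖v 0‖ cos (2 π / n)`.
-/

namespace Pool.Agent.Helper57.CW

private theorem re68 (z w : ℂ) :
    (z * (starRingEnd ℂ) w).re = ‖z‖ * ‖w‖ * Real.cos (z.arg - w.arg) := by
  rw [Complex.mul_re, Complex.conj_re, Complex.conj_im, Real.cos_sub]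
  have h1 := Complex.norm_mul_cos_arg z
  have h2 := Complex.norm_mul_sin_arg z
  have h3 := Complex.norm_mul_cos_arg w
  have h4 := Complex.norm_mul_sin_arg w
  calc z.re * w.re - z.im * -w.im = z.re * w.re + z.im * w.im := by ring
    _ = (‖z‖ * Real.cos z.arg) * (‖w‖ * Real.cos w.arg) +
        (‖z‖ * Real.sin z.arg) * (‖w‖ * Real.sin w.arg) := by rw [h1, h2, h3, h4]
    _ = _ := by ring

/-- Reduced angle with respect to `b`. -/
private noncomputable def th68 (b : ℝ) (x : ℝ) : ℝ := toIcoMod Real.two_pi_pos 0 (x - b)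

private theorem th68_cos (b x y : ℝ) : Real.cos (th68 b x - th68 b y) = Real.cos (x - y) := by
  unfold th68
  rw [← self_sub_toIcoDiv_zsmul, ← self_sub_toIcoDiv_zsmul]
  set k := toIcoDiv Real.two_pi_pos 0 (x - b)
  set l := toIcoDiv Real.two_pi_pos 0 (y - b)
  have h : x - b - k • (2 * Real.pi) - (y - b - l • (2 * Real.pi)) = (x - y) - ((k - l : ℤ) : ℝ) * (2 * Real.pi) := by
    rw [zsmul_eq_mul, zsmul_eq_mul]
    push_cast
    ring
  rw [h, Real.cos_sub_int_mul_two_pi]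

private theorem th68_mem (b x : ℝ) : 0 ≤ th68 b x ∧ th68 b x < 2 * Real.pi := by
  have h := toIcoMod_mem_Ico Real.two_pi_pos 0 (x - b)
  rw [zero_add] at h
  exact h

private theorem th68_self (b : ℝ) : th68 b b = 0 := by
  unfold th68
  rw [sub_self, toIcoMod_apply_left]

private theorem cos68 {n : ℕ} (hn : 2 ≤ n) {x : ℝ} (hx : |x| ≤ 2 * Real.pi / n) :
    Real.cos (2 * Real.pi / n) ≤ Real.cos x := by
  rw [← Real.cos_abs x]
  refine Real.cos_le_cos_of_nonneg_of_le_pi (abs_nonneg x) ?_ hx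
  have h2 : (2 : ℝ) ≤ n := by exact_mod_cast hn
  rw [div_le_iff₀ (by linarith)]
  nlinarith [Real.pi_pos]

theorem exists_angle_le {n : ℕ} (hn : 2 ≤ n) (v : Fin n → ℂ) (hv : ∀ i, v i ≠ 0) :
    ∃ i j : Fin n, i ≠ j ∧
      ‖v i‖ * ‖v j‖ * Real.cos (2 * Real.pi / n) ≤ (v i * (starRingEnd ℂ) (v j)).re := by
  have hn0 : (0 : ℝ) < n := by exact_mod_cast (by omega : 0 < n)
  have hpi := Real.pi_pos
  set b : ℝ := (v ⟨0, by omega⟩).arg with hb
  suffices h : ∃ i j : Fin n, i ≠ j ∧ Real.cos (2 * Real.pi / n) ≤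
      Real.cos (th68 b (v i).arg - th68 b (v j).arg) by
    obtain ⟨i, j, hij, hc⟩ := h
    refine ⟨i, j, hij, ?_⟩
    rw [re68, ← th68_cos b]
    exact mul_le_mul_of_nonneg_left hc (by positivity)
  have hfl : ∀ i : Fin n, ⌊n * th68 b (v i).arg / (2 * Real.pi)⌋₊ < n := fun i => by
    obtain ⟨h1, h2⟩ := th68_mem b (v i).arg
    rw [Nat.floor_lt (by positivity), div_lt_iff₀ (by positivity)]
    exact mul_lt_mul_of_pos_left h2 hn0
  let f : Fin n → Fin n := fun i => ⟨⌊n * th68 b (v i).arg / (2 * Real.pi)⌋₊, hfl i⟩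
  have hlow : ∀ i, ((f i : ℕ) : ℝ) * (2 * Real.pi / n) ≤ th68 b (v i).arg := fun i => by
    obtain ⟨h1, h2⟩ := th68_mem b (v i).arg
    have h3 : ((f i : ℕ) : ℝ) ≤ n * th68 b (v i).arg / (2 * Real.pi) := Nat.floor_le (by positivity)
    rw [le_div_iff₀ (by positivity)] at h3
    rw [mul_div_assoc', div_le_iff₀ hn0]
    linarith
  have hup : ∀ i, th68 b (v i).arg < (((f i : ℕ) : ℝ) + 1) * (2 * Real.pi / n) := fun i => by
    have h3 : n * th68 b (v i).arg / (2 * Real.pi) < ((f i : ℕ) : ℝ) + 1 := Nat.lt_floor_add_one _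
    rw [div_lt_iff₀ (by positivity)] at h3
    rw [mul_div_assoc', lt_div_iff₀ hn0]
    linarith
  by_cases hinj : Function.Injective f
  · have hsurj : Function.Surjective f := Finite.surjective_of_injective hinj
    obtain ⟨i, hi⟩ := hsurj ⟨n - 1, by omega⟩
    have hz : th68 b (v ⟨0, by omega⟩).arg = 0 := th68_self b
    refine ⟨i, ⟨0, by omega⟩, ?_, ?_⟩
    · intro h0
      have h1 : (f ⟨0, by omega⟩ : ℕ) = 0 := by
        show ⌊n * th68 b (v ⟨0, by omega⟩).arg / (2 * Real.pi)⌋₊ = 0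
        rw [hz]
        simp
      rw [← h0, hi] at h1
      simp only at h1
      omega
    · rw [hz, sub_zero, ← Real.cos_two_pi_sub (th68 b (v i).arg)]
      apply cos68 hn
      obtain ⟨h1, h2⟩ := th68_mem b (v i).arg
      have h3 := hlow i
      rw [hi] at h3
      simp only at h3
      rw [Nat.cast_sub (by omega : 1 ≤ n), Nat.cast_one, sub_mul, one_mul, mul_div_cancel₀ _ hn0.ne'] at h3
      rw [abs_of_nonneg (by linarith)]
      linarith
  · rw [Function.not_injective_iff] at hinj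
    obtain ⟨i, j, hf, hij⟩ := hinj
    refine ⟨i, j, hij, cos68 hn ?_⟩
    have h1 := hlow i
    have h2 := hlow j
    have h3 := hup i
    have h4 := hup j
    rw [hf] at h1 h3
    rw [abs_le]
    constructor <;> linarith

/-- The same, for the squared distance. -/
theorem exists_dist_le {n : ℕ} (hn : 2 ≤ n) (v : Fin n → ℂ) (hv : ∀ i, v i ≠ 0) :
    ∃ i j : Fin n, i ≠ j ∧
      ‖v i - v j‖ ^ 2 ≤ ‖v i‖ ^ 2 + ‖v j‖ ^ 2 -
        2 * (‖v i‖ * ‖v j‖ * Real.cos (2 * Real.pi / n)) := by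
  obtain ⟨i, j, hij, h⟩ := exists_angle_le hn v hv
  refine ⟨i, j, hij, ?_⟩
  rw [Complex.sq_norm, Complex.sq_norm, Complex.sq_norm, Complex.normSq_sub]
  linarith

end Pool.Agent.Helper57.CW
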