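import Pool.Agent.Helper57.CW.Defs

/-!
# Block CW-6: the cells have disjoint interiors

`cell n j` is the angle with vertex `0`, axis `e (2 γ j)`, half-opening `γ = π / n`
(see `Defs`). `n ≥ 2`.

1. An interior point `z` of `cell n j` satisfies both inequalities strictly (if
   `ip z (e t) = 0` then `z + s e t` is in the cell for small `s > 0` but
   `ip (z + s e t) (e t) = s > 0`). In particular `z ≠ 0`.
2. Write `z = ‖z‖ e τ` and `y = τ - 2 γ j`. The two strict inequalities are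
   `cos (y - π / 2 - γ) = sin (y - γ) < 0` and `cos (y + π / 2 + γ) = - sin (y + γ) < 0`, that is
   `sin y cos γ < cos y sin γ` and `- sin y cos γ < cos y sin γ`. As `0 < γ ≤ π / 2`,
   `sin γ > 0`, `cos γ ≥ 0`: `|sin y| cos γ < cos y sin γ`, hence `cos y > 0` and (square and
   add `cos² y cos² γ`) `cos² γ < cos² y`, `cos y > cos γ`.
3. For two indices `i ≠ j` in `Fin n`, `y₁ = τ - 2 γ i`, `y₂ = τ - 2 γ j` have
   `cos y₁, cos y₂ > cos γ ≥ 0`, so `|sin y₁|, |sin y₂| < sin γ` and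
   `cos (2 γ (j - i)) = cos (y₁ - y₂) > cos² γ - sin² γ = cos (2 γ)`; but
   `2 γ |j - i| ∈ [2 γ, 2 π - 2 γ]`, where `cos ≤ cos (2 γ)`. Contradiction.
-/

namespace Pool.Agent.Helper57.CW

open Pool.Agent.Helper16.Disk7 Metric Complex

private lemma strict23 {S : Set ℂ} {t d : ℝ} (hS : ∀ z ∈ S, ip z (e t) ≤ d) {z : ℂ}
    (hz : z ∈ interior S) : ip z (e t) < d := by
  obtain ⟨U, hU, hUo, hzU⟩ := mem_interior.1 hz
  obtain ⟨ε, hε, hb⟩ := Metric.isOpen_iff.1 hUo z hzU
  have h1 : z + ((ε / 2 : ℝ) : ℂ) * e t ∈ S := by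
    apply hU
    apply hb
    rw [Metric.mem_ball, dist_eq_norm, add_sub_cancel_left, norm_mul, norm_e, mul_one,
      Complex.norm_real, Real.norm_of_nonneg (by linarith)]
    linarith
  have h2 := hS _ h1
  have h3 : ip (z + ((ε / 2 : ℝ) : ℂ) * e t) (e t) = ip z (e t) + ε / 2 := by
    rw [ip_e, ip_e, Complex.add_re, Complex.add_im, Complex.re_ofReal_mul, Complex.im_ofReal_mul,
      e_re, e_im]
    linear_combination (ε / 2) * Real.sin_sq_add_cos_sq t
  rw [h3] at h2
  linarith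

private lemma core23 {γ τ a r : ℝ} (hγ0 : 0 < γ) (hγ : γ ≤ Real.pi / 2) (hr : 0 < r)
    (h1 : r * Real.cos (τ - (a + (Real.pi / 2 + γ))) < 0)
    (h2 : r * Real.cos (τ - (a - (Real.pi / 2 + γ))) < 0) :
    Real.cos γ < Real.cos (τ - a) ∧ |Real.sin (τ - a)| < Real.sin γ := by
  have e1 : Real.cos (τ - (a + (Real.pi / 2 + γ)))
      = Real.sin (τ - a) * Real.cos γ - Real.cos (τ - a) * Real.sin γ := by
    rw [show τ - (a + (Real.pi / 2 + γ)) = (τ - a - γ) - Real.pi / 2 by ring,
      Real.cos_sub_pi_div_two, Real.sin_sub]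
  have e2 : Real.cos (τ - (a - (Real.pi / 2 + γ)))
      = -(Real.sin (τ - a) * Real.cos γ + Real.cos (τ - a) * Real.sin γ) := by
    rw [show τ - (a - (Real.pi / 2 + γ)) = (τ - a + γ) + Real.pi / 2 by ring,
      Real.cos_add_pi_div_two, Real.sin_add]
  rw [e1] at h1
  rw [e2] at h2
  have f1 : Real.sin (τ - a) * Real.cos γ - Real.cos (τ - a) * Real.sin γ < 0 := by
    by_contra hc
    push Not at hc
    have := mul_nonneg hr.le hc
    linarith
  have f2 : -(Real.sin (τ - a) * Real.cos γ + Real.cos (τ - a) * Real.sin γ) < 0 := by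
    by_contra hc
    push Not at hc
    have := mul_nonneg hr.le hc
    linarith
  have hs : 0 < Real.sin γ := Real.sin_pos_of_pos_of_lt_pi hγ0 (by linarith [Real.pi_pos])
  have hc : 0 ≤ Real.cos γ := Real.cos_nonneg_of_neg_pi_div_two_le_of_le (by linarith) hγ
  have hS := Real.sin_sq_add_cos_sq (τ - a)
  have hG := Real.sin_sq_add_cos_sq γ
  generalize Real.sin (τ - a) = S at *
  generalize Real.cos (τ - a) = C at *
  generalize Real.sin γ = s at *
  generalize Real.cos γ = c at *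
  have hC : 0 < C := by
    by_contra hcon
    push Not at hcon
    nlinarith
  have h3 : (S * c) ^ 2 < (C * s) ^ 2 := by
    apply sq_lt_sq'
    · linarith
    · linarith
  have h4 : c ^ 2 < C ^ 2 := by nlinarith
  constructor
  · exact lt_of_pow_lt_pow_left₀ 2 hC.le h4
  · apply abs_lt_of_sq_lt_sq _ hs.le
    nlinarith

private lemma cos_le23 {n k : ℕ} (hk1 : 1 ≤ k) (hk : k + 1 ≤ n) :
    Real.cos (2 * (Real.pi / n) * k) ≤ Real.cos (2 * (Real.pi / n)) := by
  have hn0 : (0 : ℝ) < n := by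
    have : 0 < n := by omega
    exact_mod_cast this
  have hγ0 : 0 < Real.pi / n := by positivity
  have hng : Real.pi / n * n = Real.pi := by field_simp
  have hk1' : (1 : ℝ) ≤ k := by exact_mod_cast hk1
  have hk' : (k : ℝ) + 1 ≤ n := by exact_mod_cast hk
  have hlow : 2 * (Real.pi / n) ≤ 2 * (Real.pi / n) * k := by
    nlinarith
  have hup : 2 * (Real.pi / n) * k ≤ 2 * Real.pi - 2 * (Real.pi / n) := by
    have : 2 * (Real.pi / n) * (k + 1) ≤ 2 * (Real.pi / n) * n :=
      mul_le_mul_of_nonneg_left hk' (by positivity)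
    have h5 : 2 * (Real.pi / n) * n = 2 * Real.pi := by linarith
    linarith
  by_cases h : 2 * (Real.pi / n) * k ≤ Real.pi
  · exact Real.cos_le_cos_of_nonneg_of_le_pi (by positivity) h hlow
  · push Not at h
    rw [← Real.cos_two_pi_sub (2 * (Real.pi / n) * k)]
    exact Real.cos_le_cos_of_nonneg_of_le_pi (by positivity) (by linarith) (by linarith)

theorem disjoint_cells {n : ℕ} (hn : 2 ≤ n) {i j : ℕ} (hi : i < n) (hj : j < n) (hij : i ≠ j) :
    Disjoint (interior (cell n i)) (interior (cell n j)) := by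
  wlog hlt : i < j generalizing i j with H
  · exact (H hj hi hij.symm (by omega)).symm
  rw [Set.disjoint_left]
  intro z hz1 hz2
  have hn0 : (0 : ℝ) < n := by
    have : 0 < n := by omega
    exact_mod_cast this
  have hn2 : (2 : ℝ) ≤ n := by exact_mod_cast hn
  have hγ0 : 0 < Real.pi / n := div_pos Real.pi_pos hn0
  have hγ : Real.pi / n ≤ Real.pi / 2 := by
    apply div_le_div_of_nonneg_left Real.pi_pos.le (by norm_num) hn2
  have a1 := strict23 (fun w hw => (hw : w ∈ cell n i).1) hz1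
  have a2 := strict23 (fun w hw => (hw : w ∈ cell n i).2) hz1
  have b1 := strict23 (fun w hw => (hw : w ∈ cell n j).1) hz2
  have b2 := strict23 (fun w hw => (hw : w ∈ cell n j).2) hz2
  have hz0 : z ≠ 0 := by
    rintro rfl
    rw [ip_e] at a1
    simp at a1
  obtain ⟨r, τ, hr, hz⟩ : ∃ r τ : ℝ, 0 < r ∧ z = (r : ℂ) * e τ :=
    ⟨‖z‖, arg z, norm_pos_iff.2 hz0, by
      unfold e
      exact (Complex.norm_mul_exp_arg_mul_I z).symm⟩
  rw [hz, ip_smul, ip_e_e] at a1 a2 b1 b2
  obtain ⟨c1, s1⟩ := core23 hγ0 hγ hr a1 a2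
  obtain ⟨c2, s2⟩ := core23 hγ0 hγ hr b1 b2
  have hcos : 0 ≤ Real.cos (Real.pi / n) :=
    Real.cos_nonneg_of_neg_pi_div_two_le_of_le (by linarith) hγ
  have key := cos_le23 (n := n) (k := j - i) (by omega) (by omega)
  have hji : ((j - i : ℕ) : ℝ) = j - i := by
    rw [Nat.cast_sub hlt.le]
  rw [hji, show 2 * (Real.pi / n) * ((j : ℝ) - i)
    = (τ - 2 * (Real.pi / n) * i) - (τ - 2 * (Real.pi / n) * j) by ring, Real.cos_sub,
    Real.cos_two_mul] at key
  have hG := Real.sin_sq_add_cos_sq (Real.pi / n)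
  have h1 : Real.cos (Real.pi / n) * Real.cos (Real.pi / n)
      < Real.cos (τ - 2 * (Real.pi / n) * i) * Real.cos (τ - 2 * (Real.pi / n) * j) :=
    mul_lt_mul'' c1 c2 hcos hcos
  have h2 : |Real.sin (τ - 2 * (Real.pi / n) * i) * Real.sin (τ - 2 * (Real.pi / n) * j)|
      < Real.sin (Real.pi / n) * Real.sin (Real.pi / n) := by
    rw [abs_mul]
    exact mul_lt_mul'' s1 s2 (abs_nonneg _) (abs_nonneg _)
  have h3 := (abs_lt.1 h2).1
  nlinarith

/-- Two sets separated by a line have disjoint interiors. -/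
theorem disjoint_interior_of_sep {A B : Set ℂ} {t d : ℝ} (hA : ∀ z ∈ A, ip z (e t) ≤ d)
    (hB : ∀ z ∈ B, d ≤ ip z (e t)) : Disjoint (interior A) (interior B) := by
  rw [Set.disjoint_left]
  intro z hz1 hz2
  have h1 := strict23 hA hz1
  have h2 : d ≤ ip z (e t) := hB z (interior_subset hz2)
  linarith

end Pool.Agent.Helper57.CW
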