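import Pool.Agent.Helper57.CW.Defs

/-!
# Block CW-11: the centres of a packing of disks, scaled

Copy the proof of `Pool.Agent.Helper79.PK.centres` (file `Pool/Agent/Helper79/PK/Final.lean` in
the repository; do not import it) and divide by `r`: the points `(b i - c) / r` have norm at most
`R / r - 1` and mutual distance at least `2`.
-/

namespace Pool.Agent.Helper57.CW

open Pool.Agent.Helper16.Disk7 Metric Complex

/-- Centres of a packing of disks. -/
private theorem centres61 {k : ℕ} {c : ℂ} {R r : ℝ} (hr : 0 < r)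
    (h : Accommodates (closedBall c R) (fun _ : Fin k => closedBall (0 : ℂ) r)) :
    ∃ b : Fin k → ℂ, (∀ i, dist (b i) c ≤ R - r) ∧
      ∀ i j, i ≠ j → 2 * r ≤ dist (b i) (b j) := by
  obtain ⟨g, hg, hsub, hdis⟩ := h
  choose a b ha hgz using hg
  have himg : ∀ i, g i '' closedBall (0 : ℂ) r = closedBall (b i) r := by
    intro i
    have ha0 : a i ≠ 0 := by
      intro h0; have := ha i; rw [h0, norm_zero] at this; norm_num at this
    ext z
    simp only [Set.mem_image, mem_closedBall, dist_eq_norm, sub_zero]
    constructor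
    · rintro ⟨w, hw, rfl⟩
      rw [hgz, add_sub_cancel_right, norm_mul, ha, one_mul]
      exact hw
    · intro hz
      refine ⟨(a i)⁻¹ * (z - b i), ?_, ?_⟩
      · rw [norm_mul, norm_inv, ha, inv_one, one_mul]; exact hz
      · rw [hgz, mul_inv_cancel_left₀ ha0]; ring
  have h1 : ∀ i, dist (b i) c + r ≤ R := by
    intro i
    have hs := hsub i
    simp only at hs
    rw [himg] at hs
    by_cases hbc : b i = c
    · have : c + (r : ℂ) ∈ closedBall (b i) r := by
        rw [mem_closedBall, hbc, dist_eq_norm, add_sub_cancel_left, Complex.norm_real,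
          Real.norm_eq_abs, abs_of_pos hr]
      have := hs this
      rw [mem_closedBall, dist_eq_norm, add_sub_cancel_left, Complex.norm_real,
          Real.norm_eq_abs, abs_of_pos hr] at this
      rw [hbc, dist_self]; linarith
    · have hne : b i - c ≠ 0 := sub_ne_zero.2 hbc
      have hn : 0 < ‖b i - c‖ := norm_pos_iff.2 hne
      have hmem : b i + (r / ‖b i - c‖ : ℝ) * (b i - c) ∈ closedBall (b i) r := by
        rw [mem_closedBall, dist_eq_norm, add_sub_cancel_left, norm_mul, Complex.norm_real,
          Real.norm_eq_abs, abs_of_pos (by positivity), div_mul_cancel₀ _ hn.ne']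
      have := hs hmem
      rw [mem_closedBall, dist_eq_norm] at this
      have e : b i + (r / ‖b i - c‖ : ℝ) * (b i - c) - c =
          ((1 + r / ‖b i - c‖ : ℝ) : ℂ) * (b i - c) := by push_cast; ring
      rw [e, norm_mul, Complex.norm_real, Real.norm_eq_abs, abs_of_pos (by positivity), add_mul,
        one_mul, div_mul_cancel₀ _ hn.ne'] at this
      rw [dist_eq_norm]; exact this
  refine ⟨b, fun i => by linarith [h1 i], ?_⟩
  · intro i j hij
    by_contra hlt
    push Not at hlt
    have hd := hdis i j hij
    simp only at hd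
    rw [himg, himg, interior_closedBall _ hr.ne', interior_closedBall _ hr.ne'] at hd
    have hmid : (b i + b j) / 2 ∈ ball (b i) r ∩ ball (b j) r := by
      rw [dist_eq_norm] at hlt
      constructor
      · rw [mem_ball, dist_eq_norm]
        have e : (b i + b j) / 2 - b i = -((b i - b j) / 2) := by ring
        rw [e, norm_neg, norm_div]
        norm_num
        linarith
      · rw [mem_ball, dist_eq_norm]
        have e : (b i + b j) / 2 - b j = (b i - b j) / 2 := by ring
        rw [e, norm_div]
        norm_num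
        linarith
    exact Set.disjoint_left.1 hd hmid.1 hmid.2

theorem centres {k : ℕ} {c : ℂ} {R r : ℝ} (hr : 0 < r)
    (h : Accommodates (closedBall c R) (fun _ : Fin k => closedBall (0 : ℂ) r)) :
    ∃ b : Fin k → ℂ, (∀ i, ‖b i‖ ≤ R / r - 1) ∧ ∀ i j, i ≠ j → 2 ≤ ‖b i - b j‖ := by
  obtain ⟨b, hb, hd⟩ := centres61 hr h
  refine ⟨fun i => (b i - c) / (r : ℂ), fun i => ?_, fun i j hij => ?_⟩
  · have h1 := hb i
    rw [dist_eq_norm] at h1
    rw [norm_div, Complex.norm_real, Real.norm_eq_abs, abs_of_pos hr, div_le_iff₀ hr, sub_mul,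
      div_mul_cancel₀ _ hr.ne', one_mul]
    exact h1
  · have h1 := hd i j hij
    rw [dist_eq_norm] at h1
    have e : (b i - c) / (r : ℂ) - (b j - c) / (r : ℂ) = (b i - b j) / (r : ℂ) := by ring
    change 2 ≤ ‖(b i - c) / (r : ℂ) - (b j - c) / (r : ℂ)‖
    rw [e, norm_div, Complex.norm_real, Real.norm_eq_abs, abs_of_pos hr, le_div_iff₀ hr]
    exact h1

end Pool.Agent.Helper57.CW
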