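import Pool.Agent.Helper16.Disk7.Support

/-!
# Packing bodies of constant width into a disk: definitions and small lemmas

The definitions of rigid motions, of `Accommodates`, of the support function and of the
perimeter are those of `Pool.Agent.Helper16.Disk7.Defs`. `e θ` is the unit vector of angle `θ`
and `ip` is the inner product of the plane.
-/

namespace Pool.Agent.Helper57.CW

open Pool.Agent.Helper16.Disk7 Metric Complex

/-- `K` has constant width: the distance between its two supporting lines of normal
direction `θ` does not depend on `θ`. -/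
def ConstantWidth (K : Set ℂ) : Prop :=
  ∃ w : ℝ, ∀ θ : ℝ, supportFn K θ + supportFn K (θ + Real.pi) = w

/-- Nonempty compact sets of constant width `w`. -/
structure CWBody (K : Set ℂ) (w : ℝ) : Prop where
  nonempty : K.Nonempty
  isCompact : IsCompact K
  width : ∀ θ : ℝ, supportFn K θ + supportFn K (θ + Real.pi) = w

lemma ip_e (z : ℂ) (θ : ℝ) : ip z (e θ) = z.re * Real.cos θ + z.im * Real.sin θ := by
  rw [ip_eq, e_re, e_im]

lemma ip_smul (r : ℝ) (z w : ℂ) : ip ((r : ℂ) * z) w = r * ip z w := by
  simp only [ip_eq, Complex.mul_re, Complex.mul_im, Complex.ofReal_re, Complex.ofReal_im]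
  ring

lemma ip_e_e (a b : ℝ) : ip (e a) (e b) = Real.cos (a - b) := by
  rw [ip_e, e_re, e_im, Real.cos_sub]

lemma e_add_pi (θ : ℝ) : e (θ + Real.pi) = -e θ := by
  apply Complex.ext
  · rw [e_re, Complex.neg_re, e_re, Real.cos_add_pi]
  · rw [e_im, Complex.neg_im, e_im, Real.sin_add_pi]

lemma ip_neg_right (z w : ℂ) : ip z (-w) = -ip z w := by
  simp only [ip_eq, Complex.neg_re, Complex.neg_im]; ring

lemma continuous_e : Continuous e := by
  unfold e
  fun_prop

/-- Rotating both arguments does not change the inner product. -/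
lemma ip_rot (z : ℂ) (a b : ℝ) : ip (e a * z) (e (a + b)) = ip z (e b) := by
  rw [ip_e, ip_e, Complex.mul_re, Complex.mul_im, e_re, e_im, Real.cos_add, Real.sin_add]
  have h := Real.sin_sq_add_cos_sq a
  linear_combination (z.re * Real.cos b + z.im * Real.sin b) * h

/-- The cell of index `j` of the division of the plane into `n` angles: the angle with vertex
`0`, axis direction `2 π j / n` and half-opening `π / n`. -/
def cell (n : ℕ) (j : ℕ) : Set ℂ :=
  {z | ip z (e (2 * (Real.pi / n) * j + (Real.pi / 2 + Real.pi / n))) ≤ 0 ∧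
       ip z (e (2 * (Real.pi / n) * j - (Real.pi / 2 + Real.pi / n))) ≤ 0}

end Pool.Agent.Helper57.CW
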