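import Pool.Agent.Helper57.CW.Angle

/-!
# Block CW-9: lower bounds for `2 ≤ k ≤ 8` points at mutual distance at least `2`

`b : Fin k → ℂ`, `‖b i‖ ≤ d`, `2 ≤ ‖b i - b j‖` for `i ≠ j`. Write `c = cos (2 π / n)`,
`s = sin (π / n)`, `c = 1 - 2 s²`, `f (a, b) = a² + b² - 2 a b c`.

1. `low_small`, `2 ≤ k ≤ 6`: suppose `d < 1 / sin (π / k)`. As `sin (π / k) ≥ 1 / 2`, `d < 2`, so
   no `b i` vanishes (another `b j` has norm `≥ 2` then). Take `i ≠ j` from `exists_dist_le`: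
   `4 ≤ f (a, b)` with `a, b ∈ (0, d]`. If `c ≤ 0`: `f ≤ 2 d² (1 - c) = 4 d² s² < 4`.
   If `c > 0`: `f` is convex in each variable, so its maximum on `[0, d]²` is at a corner:
   `0`, `d² < 4` or `4 d² s² < 4`.
2. `low_seven`: the same with `k = 7`, `n = 7` and `d < 2`: corners `d² < 4`,
   `2 d² (1 - c) ≤ d²` as `c = cos (2 π / 7) ≥ cos (π / 3) = 1 / 2`.
3. `low_eight`: suppose `d < 1 / s`, `s = sin (π / 7)`. At most one `b i` has norm `< 1`. So there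
   is an index `i₀` such that the other seven have norm `≥ 1` (`i₀` arbitrary if there is none;
   reindex with `Fin.succAbove i₀`). Take `i ≠ j` from `exists_dist_le` with `n = 7`:
   `4 ≤ f (a, b)`, `a, b ∈ [1, d]`. Corners: `f (d, d) = 4 d² s² < 4`, `f (1, 1) = 4 s² < 4`,
   `f (1, d) = 1 + d² - 2 d c`; this is `< 4`: it is convex in `d`, for `d = 1` it is `4 s² < 4`
   and for `d = 1 / s` it is `1 + 1 / s² - 2 / s + 4 s < 4` because `0.4 ≤ s ≤ 0.45`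
   (`s ≤ π / 7`, `s ≥ x - x³ / 4` at `x = π / 7`, `Real.sin_gt_sub_cube`).
-/

namespace Pool.Agent.Helper57.CW

private lemma cos75 (n : ℕ) :
    Real.cos (2 * Real.pi / n) = 1 - 2 * Real.sin (Real.pi / n) ^ 2 := by
  have h : 2 * Real.pi / n = 2 * (Real.pi / n) := by ring
  rw [h, Real.cos_two_mul, Real.cos_sq']; ring

private lemma key75 {a b d c : ℝ} (ha : 0 ≤ a) (hab : a ≤ b) (hb : b ≤ d) (hc : c ≤ 1)
    (h1 : d ^ 2 < 4) (h2 : 2 * d ^ 2 * (1 - c) < 4) :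
    a ^ 2 + b ^ 2 - 2 * (a * b * c) < 4 := by
  have hb0 : 0 ≤ b := ha.trans hab
  have hbd : b ^ 2 ≤ d ^ 2 := by nlinarith
  rcases le_total a (2 * b * c) with h | h
  · nlinarith [mul_nonneg ha (sub_nonneg.2 h)]
  · have h3 : a * (a - 2 * b * c) ≤ b * (b - 2 * b * c) :=
      mul_le_mul hab (by linarith) (by linarith) hb0
    nlinarith [mul_le_mul_of_nonneg_right hbd (sub_nonneg.2 hc)]

private lemma key75' {a b d c : ℝ} (ha : 0 ≤ a) (hb : 0 ≤ b) (had : a ≤ d) (hbd : b ≤ d)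
    (hc : c ≤ 1) (h1 : d ^ 2 < 4) (h2 : 2 * d ^ 2 * (1 - c) < 4) :
    a ^ 2 + b ^ 2 - 2 * (a * b * c) < 4 := by
  rcases le_total a b with h | h
  · exact key75 ha h hbd hc h1 h2
  · have := key75 hb h had hc h1 h2
    have e : a ^ 2 + b ^ 2 - 2 * (a * b * c) = b ^ 2 + a ^ 2 - 2 * (b * a * c) := by ring
    rw [e]; exact this

private lemma main75 {k : ℕ} (h2 : 2 ≤ k) {b : Fin k → ℂ} {d : ℝ}
    (hd : ∀ i, ‖b i‖ ≤ d) (hb : ∀ i j, i ≠ j → 2 ≤ ‖b i - b j‖) (hd2 : d < 2)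
    (h : 2 * d ^ 2 * (1 - Real.cos (2 * Real.pi / k)) < 4) : False := by
  have hd0 : 0 ≤ d := (norm_nonneg _).trans (hd ⟨0, by omega⟩)
  have hne : ∀ i, b i ≠ 0 := by
    intro i hi
    have : ∃ j : Fin k, j ≠ i := by
      by_cases h0 : i.1 = 0
      · exact ⟨⟨1, by omega⟩, fun h => by rw [← h] at h0; simp at h0⟩
      · exact ⟨⟨0, by omega⟩, fun h => h0 (by rw [← h])⟩
    obtain ⟨j, hj⟩ := this
    have h3 := hb j i hj
    rw [hi, sub_zero] at h3
    linarith [hd j]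
  obtain ⟨i, j, hij, hle⟩ := exists_dist_le h2 b hne
  have h4 := hb i j hij
  have h5 : (4 : ℝ) ≤ ‖b i - b j‖ ^ 2 := by nlinarith
  have h6 := key75' (norm_nonneg (b i)) (norm_nonneg (b j)) (hd i) (hd j)
    (Real.cos_le_one (2 * Real.pi / k)) (by nlinarith) h
  linarith

theorem low_small {k : ℕ} (h2 : 2 ≤ k) (h6 : k ≤ 6) {b : Fin k → ℂ} {d : ℝ}
    (hd : ∀ i, ‖b i‖ ≤ d) (hb : ∀ i j, i ≠ j → 2 ≤ ‖b i - b j‖) :
    1 / Real.sin (Real.pi / k) ≤ d := by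
  by_contra hlt
  push Not at hlt
  have hk2 : (2 : ℝ) ≤ k := by exact_mod_cast h2
  have hk6 : (k : ℝ) ≤ 6 := by exact_mod_cast h6
  have hk0 : (0 : ℝ) < k := by linarith
  have hs : 1 / 2 ≤ Real.sin (Real.pi / k) := by
    rw [← Real.sin_pi_div_six]
    apply Real.sin_le_sin_of_le_of_le_pi_div_two
    · linarith [Real.pi_pos]
    · exact div_le_div_of_nonneg_left Real.pi_pos.le (by norm_num) hk2
    · exact div_le_div_of_nonneg_left Real.pi_pos.le hk0 hk6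
  have hs0 : 0 < Real.sin (Real.pi / k) := by linarith
  have hd0 : 0 ≤ d := (norm_nonneg _).trans (hd ⟨0, by omega⟩)
  have hds : d * Real.sin (Real.pi / k) < 1 := by
    rwa [lt_div_iff₀ hs0] at hlt
  have hd2 : d < 2 := by nlinarith
  apply main75 h2 hd hb hd2
  rw [cos75]
  have h7 : 0 ≤ d * Real.sin (Real.pi / k) := mul_nonneg hd0 hs0.le
  nlinarith

theorem low_seven {b : Fin 7 → ℂ} {d : ℝ}
    (hd : ∀ i, ‖b i‖ ≤ d) (hb : ∀ i j, i ≠ j → 2 ≤ ‖b i - b j‖) : 2 ≤ d := by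
  by_contra hlt
  push Not at hlt
  have hd0 : 0 ≤ d := (norm_nonneg _).trans (hd 0)
  apply main75 (k := 7) (by norm_num) hd hb hlt
  have hc : 1 / 2 ≤ Real.cos (2 * Real.pi / (7 : ℕ)) := by
    rw [← Real.cos_pi_div_three]
    apply Real.cos_le_cos_of_nonneg_of_le_pi
    · positivity
    · linarith [Real.pi_pos]
    · push_cast
      linarith [Real.pi_pos]
  nlinarith [sq_nonneg d]

theorem low_eight {b : Fin 8 → ℂ} {d : ℝ}
    (hd : ∀ i, ‖b i‖ ≤ d) (hb : ∀ i j, i ≠ j → 2 ≤ ‖b i - b j‖) :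
    1 / Real.sin (Real.pi / 7) ≤ d := by
  by_contra hlt
  push Not at hlt
  have hpi1 := Real.pi_gt_d2
  have hpi2 := Real.pi_lt_d2
  have hs1 : (0.42 : ℝ) < Real.sin (Real.pi / 7) := by
    have h1 := Real.sin_gt_sub_cube (x := Real.pi / 7) (by positivity)
    have h2 : Real.pi / 7 < 0.45 := by linarith
    have h3 : (0.448 : ℝ) < Real.pi / 7 := by linarith
    have h4 : (Real.pi / 7) ^ 3 ≤ 0.45 ^ 3 := by gcongr
    norm_num at h4
    linarith
  have hs2 : Real.sin (Real.pi / 7) < 0.45 := by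
    have h1 := Real.sin_lt (x := Real.pi / 7) (by positivity)
    linarith
  set s := Real.sin (Real.pi / 7) with hs
  have hs0 : 0 < s := by linarith
  have hd0 : 0 ≤ d := (norm_nonneg _).trans (hd 0)
  have hds : d * s < 1 := by rwa [lt_div_iff₀ hs0] at hlt
  have hd3 : d < 2.4 := by nlinarith
  have hc : Real.cos (2 * Real.pi / (7 : ℕ)) = 1 - 2 * s ^ 2 := by
    rw [cos75]; push_cast; rfl
  have hex : ∃ i₀ : Fin 8, ∀ i, i ≠ i₀ → 1 ≤ ‖b i‖ := by
    by_cases h : ∃ i₀, ‖b i₀‖ < 1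
    · obtain ⟨i₀, hi₀⟩ := h
      refine ⟨i₀, fun i hi => ?_⟩
      by_contra hlt1
      push Not at hlt1
      have h1 := hb i i₀ hi
      have h2 := norm_sub_le (b i) (b i₀)
      linarith
    · push Not at h
      exact ⟨0, fun i _ => h i⟩
  obtain ⟨i₀, hi₀⟩ := hex
  have hv : ∀ m : Fin 7, 1 ≤ ‖b (i₀.succAbove m)‖ := fun m => hi₀ _ (Fin.succAbove_ne i₀ m)
  obtain ⟨i, j, hij, hle⟩ := exists_dist_le (n := 7) (by norm_num)
    (fun m => b (i₀.succAbove m)) (fun m h0 => by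
      have := hv m
      rw [h0, norm_zero] at this
      linarith)
  have hij' : i₀.succAbove i ≠ i₀.succAbove j := fun h => hij (Fin.succAbove_right_injective h)
  have h4 := hb _ _ hij'
  have h5 : (4 : ℝ) ≤ ‖b (i₀.succAbove i) - b (i₀.succAbove j)‖ ^ 2 := by nlinarith
  rw [hc] at hle
  have hfin : ∀ a e : ℝ, 1 ≤ a → a ≤ e → e ≤ d →
      a ^ 2 + e ^ 2 - 2 * (a * e * (1 - 2 * s ^ 2)) < 4 := by
    intro a e h1 h2 h3
    have he0 : 0 < e := by linarith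
    have hes : e * s < 1 := by nlinarith
    have hes0 : 0 < e * s := by positivity
    -- the value at `a = e`
    have h6 : e ^ 2 + e ^ 2 - 2 * (e * e * (1 - 2 * s ^ 2)) < 4 := by nlinarith
    -- the value at `a = 1`
    have h7 : 1 + e ^ 2 - 2 * (1 * e * (1 - 2 * s ^ 2)) < 4 := by
      have h8 : s ^ 2 < 0.45 ^ 2 := by nlinarith
      have h9 : e * s ^ 2 ≤ e * 0.45 ^ 2 := by nlinarith
      nlinarith
    -- convexity
    have h10 : 0 ≤ (a - 1) * (e - a) := mul_nonneg (by linarith) (by linarith)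
    rcases le_total (2 * e * (1 - 2 * s ^ 2)) (a + 1) with h11 | h11
    · -- increasing up to `e`
      nlinarith [mul_nonneg (sub_nonneg.2 h2) (sub_nonneg.2 h11)]
    · nlinarith [mul_nonneg (sub_nonneg.2 h1) (sub_nonneg.2 h11)]
  rcases le_total ‖b (i₀.succAbove i)‖ ‖b (i₀.succAbove j)‖ with h | h
  · have := hfin _ _ (hv i) h (hd _)
    linarith
  · have := hfin _ _ (hv j) h (hd _)
    have e : ‖b (i₀.succAbove i)‖ ^ 2 + ‖b (i₀.succAbove j)‖ ^ 2 -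
        2 * (‖b (i₀.succAbove i)‖ * ‖b (i₀.succAbove j)‖ * (1 - 2 * s ^ 2)) =
        ‖b (i₀.succAbove j)‖ ^ 2 + ‖b (i₀.succAbove i)‖ ^ 2 -
        2 * (‖b (i₀.succAbove j)‖ * ‖b (i₀.succAbove i)‖ * (1 - 2 * s ^ 2)) := by ring
    linarith

end Pool.Agent.Helper57.CW
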