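import Pool.Agent.Helper57.CW.Angle

/-!
# The lower bound for nine points at mutual distance at least `2`
-/

namespace Pool.Agent.Helper57.CW

lemma corner9 {l d a b κ : ℝ} (hla : l ≤ a) (had : a ≤ d) :
    a ^ 2 + b ^ 2 - κ * (a * b) ≤ l ^ 2 + b ^ 2 - κ * (l * b) ∨
    a ^ 2 + b ^ 2 - κ * (a * b) ≤ d ^ 2 + b ^ 2 - κ * (d * b) := by
  rcases le_total (a + l) (κ * b) with h | h
  · left
    nlinarith [mul_nonneg (sub_nonneg.2 hla) (sub_nonneg.2 h)]
  · right
    have h2 : κ * b ≤ a + d := by linarith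
    nlinarith [mul_nonneg (sub_nonneg.2 had) (sub_nonneg.2 h2)]

lemma corners9 {l d a b κ : ℝ} (hla : l ≤ a) (had : a ≤ d) (hlb : l ≤ b) (hbd : b ≤ d)
    (h1 : l ^ 2 + l ^ 2 - κ * (l * l) < 4) (h2 : l ^ 2 + d ^ 2 - κ * (l * d) < 4)
    (h3 : d ^ 2 + d ^ 2 - κ * (d * d) < 4) : a ^ 2 + b ^ 2 - κ * (a * b) < 4 := by
  rcases corner9 (b := b) (κ := κ) hla had with h | h
  · rcases corner9 (b := l) (κ := κ) hlb hbd with h' | h'
    · nlinarith
    · nlinarith
  · rcases corner9 (b := d) (κ := κ) hlb hbd with h' | h'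
    · nlinarith
    · nlinarith

lemma cos_two_pi_div_nine_ge : (0.766 : ℝ) ≤ Real.cos (2 * Real.pi / (9 : ℕ)) := by
  push_cast
  set c := Real.cos (2 * Real.pi / 9) with hc
  have hpi := Real.pi_pos
  have h1 : 4 * c ^ 3 - 3 * c = -(1 / 2) := by
    rw [hc, ← Real.cos_three_mul]
    have : 3 * (2 * Real.pi / 9) = Real.pi - Real.pi / 3 := by ring
    rw [this, Real.cos_pi_sub, Real.cos_pi_div_three]
  have h2 : √2 / 2 ≤ c := by
    rw [← Real.cos_pi_div_four]
    exact Real.cos_le_cos_of_nonneg_of_le_pi (by positivity) (by linarith) (by linarith)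
  have h3 : (1.4 : ℝ) ≤ √2 := by
    apply Real.le_sqrt_of_sq_le
    norm_num
  have h4 : (0.7 : ℝ) ≤ c := by linarith
  by_contra h5
  push Not at h5
  nlinarith [mul_nonneg (sub_nonneg.2 h4) (sub_nonneg.2 h5.le), mul_nonneg
    (mul_nonneg (sub_nonneg.2 h4) (sub_nonneg.2 h5.le)) (show (0 : ℝ) ≤ c by linarith)]

theorem low_nine {b : Fin 9 → ℂ} {d : ℝ}
    (hd : ∀ i, ‖b i‖ ≤ d) (hb : ∀ i j, i ≠ j → 2 ≤ ‖b i - b j‖) :
    1 / Real.sin (Real.pi / 8) ≤ d := by
  by_contra hlt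
  push Not at hlt
  have hd0 : 0 ≤ d := (norm_nonneg _).trans (hd 0)
  have h2 : √2 ^ 2 = 2 := Real.sq_sqrt (by norm_num)
  have h2a : (1.414213 : ℝ) ≤ √2 := by
    apply Real.le_sqrt_of_sq_le
    norm_num
  have h2b : √2 ≤ 1.414214 := by
    rw [Real.sqrt_le_left (by norm_num)]
    norm_num
  have hs0 : 0 < Real.sin (Real.pi / 8) :=
    Real.sin_pos_of_pos_of_lt_pi (by positivity) (by linarith [Real.pi_pos])
  have hs : Real.sin (Real.pi / 8) ^ 2 = (2 - √2) / 4 := by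
    rw [Real.sin_pi_div_eight, div_pow, Real.sq_sqrt (by linarith)]
    norm_num
  have hds : d * Real.sin (Real.pi / 8) < 1 := by
    rwa [lt_div_iff₀ hs0] at hlt
  have hds2 : d ^ 2 * (2 - √2) < 4 := by
    have h3 : (d * Real.sin (Real.pi / 8)) ^ 2 < 1 := by
      have : 0 ≤ d * Real.sin (Real.pi / 8) := mul_nonneg hd0 hs0.le
      nlinarith
    rw [mul_pow, hs] at h3
    linarith
  have hd2 : d ^ 2 < 4 + 2 * √2 := by nlinarith
  have hdD : d < 2.61313 := by nlinarith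
  by_cases hA : ∀ i, 0.917 ≤ ‖b i‖
  · obtain ⟨i, j, hij, h⟩ := exists_dist_le (by norm_num) b fun i h0 => by
      have := hA i
      rw [h0, norm_zero] at this
      norm_num at this
    have hc := cos_two_pi_div_nine_ge
    have h4 := hb i j hij
    have h5 : (4 : ℝ) ≤ ‖b i - b j‖ ^ 2 := by nlinarith
    have h6 : 0 ≤ ‖b i‖ * ‖b j‖ := by positivity
    have h7 : ‖b i‖ * ‖b j‖ * 0.766 ≤ ‖b i‖ * ‖b j‖ * Real.cos (2 * Real.pi / (9 : ℕ)) :=
      mul_le_mul_of_nonneg_left hc h6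
    have hdl : 0.917 ≤ d := (hA 0).trans (hd 0)
    have h8 := corners9 (κ := 1.532) (hA i) (hd i) (hA j) (hd j) (by norm_num)
      (by nlinarith [mul_nonneg (sub_nonneg.2 hdl) (sub_nonneg.2 hdD.le)]) (by nlinarith)
    linarith
  · push Not at hA
    obtain ⟨i₀, hi₀⟩ := hA
    have hn : ∀ j : Fin 8, 1.083 ≤ ‖b (Fin.succAbove i₀ j)‖ := by
      intro j
      have h3 := hb _ _ (Fin.succAbove_ne i₀ j)
      have h4 := norm_sub_le (b (Fin.succAbove i₀ j)) (b i₀)
      linarith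
    obtain ⟨i, j, hij, h⟩ := exists_dist_le (n := 8) (by norm_num)
      (fun j => b (Fin.succAbove i₀ j)) fun i h0 => by
        have := hn i
        rw [h0, norm_zero] at this
        norm_num at this
    have h4 := hb _ _ (fun h => hij (Fin.succAbove_right_injective h) :
      Fin.succAbove i₀ i ≠ Fin.succAbove i₀ j)
    have h5 : (4 : ℝ) ≤ ‖b (Fin.succAbove i₀ i) - b (Fin.succAbove i₀ j)‖ ^ 2 := by nlinarith
    have hc : Real.cos (2 * Real.pi / (8 : ℕ)) = √2 / 2 := by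
      rw [← Real.cos_pi_div_four]
      congr 1
      push_cast
      ring
    rw [hc] at h
    have hdl : 1.083 ≤ d := (hn 0).trans (hd _)
    have h8 := corners9 (κ := √2) (hn i) (hd _) (hn j) (hd _) (by nlinarith)
      (by nlinarith [mul_nonneg (sub_nonneg.2 hdl) (sub_nonneg.2 hdD.le)]) (by nlinarith)
    linarith

end Pool.Agent.Helper57.CW
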