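import Pool.Agent.Helper57.CW.Refl

/-!
# Self-complementary sets

`K` is self-complementary if the Minkowski sum of `K` and of some congruent copy of `K`
(mirror images allowed) is a disk.
-/

namespace Pool.Agent.Helper57.CW

open Pool.Agent.Helper16.Disk7 Metric Complex
open scoped Pointwise

/-- `K` is self-complementary: the Minkowski sum of `K` and of some congruent copy of `K`
is a disk. The congruent copy is the image of `K` under `z ↦ a z + b` or under
`z ↦ a * conj z + b`, with `‖a‖ = 1`. -/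
def SelfComplementary (K : Set ℂ) : Prop :=
  ∃ (a b c : ℂ) (w : ℝ), ‖a‖ = 1 ∧
    (K + (fun z => a * z + b) '' K = closedBall c w ∨
      K + (fun z => a * (starRingEnd ℂ) z + b) '' K = closedBall c w)

lemma supportFn_add {K : Set ℂ} (hc : IsCompact K) (hne : K.Nonempty) (t : ℂ) (θ : ℝ) :
    supportFn ((fun z => z + t) '' K) θ = supportFn K θ + ip t (e θ) := by
  have hc' : IsCompact ((fun z => z + t) '' K) := hc.image (by fun_prop)
  obtain ⟨z, hz, hz'⟩ := exists_attain hc hne θ
  obtain ⟨y, ⟨y', hy', rfl⟩, hy⟩ := exists_attain hc' (hne.image _) θ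
  apply le_antisymm
  · rw [← hy]
    simp only
    rw [ip_add_left]
    linarith [ip_le_supp hc hy' θ]
  · rw [← hz', ← ip_add_left]
    exact ip_le_supp hc' ⟨z, hz, rfl⟩ θ

lemma perimeter_add {K : Set ℂ} (hc : IsCompact K) (hne : K.Nonempty) {t : ℂ}
    (hcont : Continuous (supportFn ((fun z => z + t) '' K))) :
    perimeter ((fun z => z + t) '' K) = perimeter K := by
  have h1 : ∀ θ, supportFn K θ = supportFn ((fun z => z + t) '' K) θ - ip t (e θ) := by
    intro θ
    rw [supportFn_add hc hne]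
    ring
  have h2 : ∫ θ in (0 : ℝ)..(2 * Real.pi), ip t (e θ) = 0 := by
    simp only [ip_e]
    rw [intervalIntegral.integral_add (Continuous.intervalIntegrable (by fun_prop) _ _)
      (Continuous.intervalIntegrable (by fun_prop) _ _), intervalIntegral.integral_const_mul,
      intervalIntegral.integral_const_mul, integral_cos, integral_sin]
    simp
  have h3 : Continuous fun θ => ip t (e θ) := by
    simp only [ip_e]
    fun_prop
  rw [perimeter, perimeter, intervalIntegral.integral_congr (fun θ _ => h1 θ),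
    intervalIntegral.integral_sub (hcont.intervalIntegrable _ _) (h3.intervalIntegrable _ _), h2,
    sub_zero]

lemma sum_rot {K : Set ℂ} (hc : IsCompact K) (hne : K.Nonempty) {β w : ℝ} {b c : ℂ}
    (h : K + (fun z => e (-β) * z + b) '' K = closedBall c w) (θ : ℝ) :
    supportFn K θ + supportFn K (θ + β) + ip (b - c) (e θ) = w := by
  have hw : 0 ≤ w := by
    obtain ⟨z, hz⟩ := hne
    have h1 : z + (e (-β) * z + b) ∈ closedBall c w := by
      rw [← h]
      exact Set.add_mem_add hz ⟨z, hz, rfl⟩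
    exact nonempty_closedBall.1 ⟨_, h1⟩
  apply le_antisymm
  · obtain ⟨z, hz, hz'⟩ := exists_attain hc hne θ
    obtain ⟨y, hy, hy'⟩ := exists_attain hc hne (θ + β)
    have h1 : z + (e (-β) * y + b) ∈ closedBall c w := by
      rw [← h]
      exact Set.add_mem_add hz ⟨y, hy, rfl⟩
    rw [mem_closedBall, dist_eq_norm] at h1
    have h2 := (ip_le_norm (z + (e (-β) * y + b) - c) (e θ) (norm_e θ)).trans h1
    rw [ip_sub_left, ip_add_left, ip_add_left, ip_rot_neg, hz', hy'] at h2
    rw [ip_sub_left]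
    linarith
  · have h1 : c + (w : ℂ) * e θ ∈ closedBall c w := by
      rw [mem_closedBall, dist_eq_norm, add_sub_cancel_left, norm_mul, norm_e, mul_one,
        Complex.norm_real, Real.norm_of_nonneg hw]
    rw [← h] at h1
    obtain ⟨z, hz, v, ⟨y, hy, rfl⟩, hzy⟩ := h1
    simp only at hzy
    have h2 : ip (z + (e (-β) * y + b)) (e θ) = ip c (e θ) + w := by
      rw [hzy, ip_add_left, ip_smul, ip_e_e, sub_self, Real.cos_zero, mul_one]
    rw [ip_add_left, ip_add_left, ip_rot_neg] at h2
    have h3 := ip_le_supp hc hz θ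
    have h4 := ip_le_supp hc hy (θ + β)
    rw [ip_sub_left]
    linarith

lemma sum_refl {K : Set ℂ} (hc : IsCompact K) (hne : K.Nonempty) {τ w : ℝ} {b c : ℂ}
    (h : K + (fun z => e τ * (starRingEnd ℂ) z + b) '' K = closedBall c w) (θ : ℝ) :
    supportFn K θ + supportFn K (τ - θ) + ip (b - c) (e θ) = w := by
  have hw : 0 ≤ w := by
    obtain ⟨z, hz⟩ := hne
    have h1 : z + (e τ * (starRingEnd ℂ) z + b) ∈ closedBall c w := by
      rw [← h]
      exact Set.add_mem_add hz ⟨z, hz, rfl⟩
    exact nonempty_closedBall.1 ⟨_, h1⟩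
  apply le_antisymm
  · obtain ⟨z, hz, hz'⟩ := exists_attain hc hne θ
    obtain ⟨y, hy, hy'⟩ := exists_attain hc hne (τ - θ)
    have h1 : z + (e τ * (starRingEnd ℂ) y + b) ∈ closedBall c w := by
      rw [← h]
      exact Set.add_mem_add hz ⟨y, hy, rfl⟩
    rw [mem_closedBall, dist_eq_norm] at h1
    have h2 := (ip_le_norm (z + (e τ * (starRingEnd ℂ) y + b) - c) (e θ) (norm_e θ)).trans h1
    rw [ip_sub_left, ip_add_left, ip_add_left, ip_refl, hz', hy'] at h2
    rw [ip_sub_left]
    linarith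
  · have h1 : c + (w : ℂ) * e θ ∈ closedBall c w := by
      rw [mem_closedBall, dist_eq_norm, add_sub_cancel_left, norm_mul, norm_e, mul_one,
        Complex.norm_real, Real.norm_of_nonneg hw]
    rw [← h] at h1
    obtain ⟨z, hz, v, ⟨y, hy, rfl⟩, hzy⟩ := h1
    simp only at hzy
    have h2 : ip (z + (e τ * (starRingEnd ℂ) y + b)) (e θ) = ip c (e θ) + w := by
      rw [hzy, ip_add_left, ip_smul, ip_e_e, sub_self, Real.cos_zero, mul_one]
    rw [ip_add_left, ip_add_left, ip_refl] at h2
    have h3 := ip_le_supp hc hz θ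
    have h4 := ip_le_supp hc hy (τ - θ)
    rw [ip_sub_left]
    linarith

lemma supportFn_congr (K : Set ℂ) {s t : ℝ} (h : e s = e t) : supportFn K s = supportFn K t := by
  have h1 : Real.cos s = Real.cos t := by rw [← e_re, ← e_re, h]
  have h2 : Real.sin s = Real.sin t := by rw [← e_im, ← e_im, h]
  simp only [supportFn, h1, h2]

/-- After a translation, a self-complementary set is of one of the two normal types. -/
theorem normalize {K : Set ℂ} (hK : IsUnitConvexSet K) (hs : SelfComplementary K) :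
    ∃ t : ℂ, (∃ β, RCBody ((fun z => z + t) '' K) β (1 / Real.pi)) ∨
      ∃ τ, RFBody ((fun z => z + t) '' K) τ (1 / Real.pi) := by
  have hc := hK.isCompact
  have hne := hK.nonempty
  have hpi := Real.pi_pos
  obtain ⟨a, b, c, w, ha, h | h⟩ := hs
  · obtain ⟨β', hβ'⟩ := exists_e a ha
    obtain ⟨β, hβ⟩ : ∃ β, β = -β' := ⟨_, rfl⟩
    have haβ : a = e (-β) := by rw [hβ, neg_neg, hβ']
    rw [haβ] at h
    have hsum := sum_rot hc hne h
    -- the translation
    obtain ⟨t, ht⟩ : ∃ t : ℂ, ∀ θ, ip t (e θ) + ip t (e (θ + β)) = ip (b - c) (e θ) := by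
      by_cases h1 : 1 + e (-β) = 0
      · refine ⟨0, fun θ => ?_⟩
        have h2 : e β = -1 := by
          have h3 : e β * e (-β) = 1 := by
            rw [e_mul, add_neg_cancel]
            simp [e]
          have h4 : e (-β) = -1 := by linear_combination h1
          rw [h4] at h3
          linear_combination -h3
        have h5 : ∀ θ, e (θ + β) = -e θ := by
          intro θ
          rw [← e_mul, h2]
          ring
        have h6 := hsum θ
        have h7 := hsum (θ + β)
        have h8 : supportFn K (θ + β + β) = supportFn K θ := by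
          apply supportFn_congr
          rw [h5, h5, neg_neg]
        rw [h8, h5, ip_neg_right] at h7
        have h9 : ip (0 : ℂ) (e θ) = 0 := by simp [ip_eq]
        have h10 : ip (0 : ℂ) (e (θ + β)) = 0 := by simp [ip_eq]
        rw [h9, h10]
        linarith
      · refine ⟨(b - c) / (1 + e (-β)), fun θ => ?_⟩
        rw [← ip_rot_neg, ← ip_add_left]
        congr 1
        field_simp
    have h2 : ∀ θ, supportFn ((fun z => z + t) '' K) θ +
        supportFn ((fun z => z + t) '' K) (θ + β) = w := by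
      intro θ
      rw [supportFn_add hc hne, supportFn_add hc hne]
      linarith [hsum θ, ht θ]
    have hB : RCBody ((fun z => z + t) '' K) β w :=
      ⟨hne.image _, hc.image (by fun_prop), h2⟩
    have hU : IsUnitConvexSet ((fun z => z + t) '' K) := by
      refine ⟨hne.image _, hc.image (by fun_prop), ?_, ?_⟩
      · have := hK.convex.translate t
        simpa [add_comm] using this
      · rw [perimeter_add hc hne (continuous_supportFn_rot hB), hK.perimeter_eq]
    obtain ⟨β₂, w₂, h3⟩ : RotationComplementary ((fun z => z + t) '' K) := ⟨β, w, h2⟩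
    exact ⟨t, Or.inl (rcBody_of hU ⟨β, w, h2⟩)⟩
  · obtain ⟨τ, hτ⟩ := exists_e a ha
    rw [hτ] at h
    have hsum := sum_refl hc hne h
    have hsym : ∀ θ, ip (b - c) (e θ) = ip (b - c) (e (τ - θ)) := by
      intro θ
      have h1 := hsum θ
      have h2 := hsum (τ - θ)
      rw [sub_sub_cancel] at h2
      linarith
    obtain ⟨t, ht⟩ : ∃ t : ℂ, t = ((1 / 2 : ℝ) : ℂ) * (b - c) := ⟨_, rfl⟩
    have h2 : ∀ θ, supportFn ((fun z => z + t) '' K) θ +
        supportFn ((fun z => z + t) '' K) (τ - θ) = w := by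
      intro θ
      rw [supportFn_add hc hne, supportFn_add hc hne, ht, ip_smul, ip_smul]
      linarith [hsum θ, hsym θ]
    have hB : RFBody ((fun z => z + t) '' K) τ w :=
      ⟨hne.image _, hc.image (by fun_prop), h2⟩
    have hcont : Continuous (supportFn ((fun z => z + t) '' K)) := by
      obtain ⟨-, x, -, -, -, -, -, hd⟩ := exists_supp_refl hB
      exact continuous_iff_continuousAt.2 fun t => (hd t).continuousAt
    have h3 := perimeter_refl hB
    rw [perimeter_add hc hne hcont, hK.perimeter_eq] at h3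
    have h4 : w = 1 / Real.pi := by
      field_simp
      linarith
    exact ⟨t, Or.inr ⟨τ, h4 ▸ hB⟩⟩

/-- A self-complementary set of perimeter `1` in a circular sector. -/
theorem sector_self {K : Set ℂ} (hK : IsUnitConvexSet K) (hs : SelfComplementary K) {γ : ℝ}
    (h0 : 0 < γ) (h1 : γ ≤ Real.pi / 2) :
    ∃ (θ : ℝ) (O : ℂ), ∀ z ∈ K,
      ip (z - O) (e (θ + (Real.pi / 2 + γ))) ≤ 0 ∧
      ip (z - O) (e (θ - (Real.pi / 2 + γ))) ≤ 0 ∧
      ‖z - O‖ ≤ 1 / Real.pi / 2 * (1 + 1 / Real.sin γ) := by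
  obtain ⟨t, h⟩ := normalize hK hs
  obtain ⟨θ, O, h2⟩ : ∃ (θ : ℝ) (O : ℂ), ∀ z ∈ (fun z => z + t) '' K,
      ip (z - O) (e (θ + (Real.pi / 2 + γ))) ≤ 0 ∧
      ip (z - O) (e (θ - (Real.pi / 2 + γ))) ≤ 0 ∧
      ‖z - O‖ ≤ 1 / Real.pi / 2 * (1 + 1 / Real.sin γ) := by
    rcases h with ⟨β, h⟩ | ⟨τ, h⟩
    · exact sector_rot h h0 h1
    · exact sector_refl h h0 h1
  refine ⟨θ, O - t, fun z hz => ?_⟩
  have h3 := h2 (z + t) ⟨z, hz, rfl⟩
  have h4 : z + t - O = z - (O - t) := by ring
  rw [h4] at h3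
  exact h3

/-- Such a set placed in the cell of index `j`. -/
theorem place_self {n : ℕ} (hn : 2 ≤ n) {K : Set ℂ} (hK : IsUnitConvexSet K)
    (hs : SelfComplementary K) (j : ℕ) :
    ∃ g : ℂ → ℂ, IsRigidMotion g ∧ g '' K ⊆ cell n j ∧
      ∀ z ∈ g '' K, ‖z‖ ≤ 1 / Real.pi / 2 * (1 + 1 / Real.sin (Real.pi / n)) := by
  have hn' : (2 : ℝ) ≤ n := by exact_mod_cast hn
  have hpos : (0 : ℝ) < n := by linarith
  have h0 : 0 < Real.pi / n := div_pos Real.pi_pos hpos
  have h1 : Real.pi / n ≤ Real.pi / 2 :=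
    div_le_div_of_nonneg_left Real.pi_pos.le (by norm_num) hn'
  obtain ⟨θ, O, h⟩ := sector_self hK hs h0 h1
  have key : ∀ (z : ℂ) (b : ℝ), ip (e (2 * (Real.pi / n) * j - θ) * (z - O))
      (e (2 * (Real.pi / n) * j + b)) = ip (z - O) (e (θ + b)) := by
    intro z b
    rw [← ip_rot (z - O) (2 * (Real.pi / n) * j - θ) (θ + b)]
    congr 2
    ring
  refine ⟨fun z => e (2 * (Real.pi / n) * j - θ) * (z - O), rigid _ _ (norm_e _), ?_, ?_⟩
  · rintro _ ⟨z, hz, rfl⟩
    obtain ⟨a1, a2, a3⟩ := h z hz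
    refine ⟨?_, ?_⟩
    · simp only
      rw [key]
      exact a1
    · have h5 := key z (-(Real.pi / 2 + Real.pi / n))
      rw [← sub_eq_add_neg, ← sub_eq_add_neg] at h5
      simp only
      rw [h5]
      exact a2
  · rintro _ ⟨z, hz, rfl⟩
    simp only
    rw [norm_mul, norm_e, one_mul]
    exact (h z hz).2.2

theorem ring_self {n : ℕ} (hn : 2 ≤ n) {K : Fin n → Set ℂ}
    (hK : ∀ i, IsUnitConvexSet (K i) ∧ SelfComplementary (K i)) :
    Accommodates (closedBall (0 : ℂ)
      (1 / Real.pi / 2 * (1 + 1 / Real.sin (Real.pi / n)))) K := by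
  choose g hg hcell hball using fun i : Fin n => place_self hn (hK i).1 (hK i).2 (i : ℕ)
  refine ⟨g, hg, fun i z hz => mem_closedBall_zero_iff.2 (hball i z hz), fun i j hij => ?_⟩
  exact (disjoint_cells hn i.2 j.2 (fun h => hij (Fin.ext h))).mono
    (interior_mono (hcell i)) (interior_mono (hcell j))

end Pool.Agent.Helper57.CW
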