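import Pool.Agent.Helper57.CW.Width
import Pool.Agent.Helper57.CW.Self
import Pool.Agent.Helper57.CW.Low1
import Pool.Agent.Helper57.CW.Low2
import Pool.Agent.Helper57.CW.Centres

/-!
# The statement `(P_k)` for bodies of constant width, `2 ≤ k ≤ 9`, and for self-complementary
sets, `2 ≤ k ≤ 6`
-/

namespace Pool.Agent.Helper57.CW

open Pool.Agent.Helper16.Disk7 Metric Complex

/-- A set of constant width or a self-complementary set placed in the cell of index `j`. -/
theorem place_any {n : ℕ} (hn : 2 ≤ n) {K : Set ℂ} (hK : IsUnitConvexSet K)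
    (hs : ConstantWidth K ∨ SelfComplementary K) (j : ℕ) :
    ∃ g : ℂ → ℂ, IsRigidMotion g ∧ g '' K ⊆ cell n j ∧
      ∀ z ∈ g '' K, ‖z‖ ≤ 1 / Real.pi / 2 * (1 + 1 / Real.sin (Real.pi / n)) := by
  rcases hs with hs | hs
  · obtain ⟨g, h1, h2, h3, -⟩ := place_sector hn (cwBody_of hK hs) j
    exact ⟨g, h1, h2, h3⟩
  · exact place_self hn hK hs j

theorem ring_any {n : ℕ} (hn : 2 ≤ n) {K : Fin n → Set ℂ}
    (hK : ∀ i, IsUnitConvexSet (K i) ∧ (ConstantWidth (K i) ∨ SelfComplementary (K i))) :
    Accommodates (closedBall (0 : ℂ)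
      (1 / Real.pi / 2 * (1 + 1 / Real.sin (Real.pi / n)))) K := by
  choose g hg hcell hball using fun i : Fin n => place_any hn (hK i).1 (hK i).2 (i : ℕ)
  refine ⟨g, hg, fun i z hz => mem_closedBall_zero_iff.2 (hball i z hz), fun i j hij => ?_⟩
  exact (disjoint_cells hn i.2 j.2 (fun h => hij (Fin.ext h))).mono
    (interior_mono (hcell i)) (interior_mono (hcell j))

theorem final {k : ℕ} (h2 : 2 ≤ k) (h9 : k ≤ 9) (c : ℂ) (R : ℝ)
    (h : Accommodates (closedBall c R)
      (fun _ : Fin k => closedBall (0 : ℂ) (1 / (2 * Real.pi))))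
    (K : Fin k → Set ℂ)
    (hK : ∀ i, IsUnitConvexSet (K i) ∧
      (ConstantWidth (K i) ∨ (k ≤ 6 ∧ SelfComplementary (K i)))) :
    Accommodates (closedBall c R) K := by
  have hpi := Real.pi_pos
  have hr : 0 < 1 / (2 * Real.pi) := by positivity
  obtain ⟨b, hb, hd⟩ := centres hr h
  have key : ∀ x : ℝ, x ≤ R / (1 / (2 * Real.pi)) - 1 →
      1 / Real.pi / 2 * (1 + x) ≤ R := by
    intro x hx
    have h1 : R / (1 / (2 * Real.pi)) = R * (2 * Real.pi) := by field_simp
    rw [h1] at hx
    have h3 : 1 / Real.pi / 2 * (1 + x) ≤ 1 / Real.pi / 2 * (R * (2 * Real.pi)) :=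
      mul_le_mul_of_nonneg_left (by linarith) (by positivity)
    have h4 : 1 / Real.pi / 2 * (R * (2 * Real.pi)) = R := by field_simp
    linarith
  rcases Nat.lt_or_ge k 7 with h7 | h7
  · exact accommodates_translate
      (ring_any h2 fun i => ⟨(hK i).1, (hK i).2.imp id fun h => h.2⟩) c
      (key _ (low_small h2 (by omega) hb hd))
  · have hB : ∀ i, CWBody (K i) (1 / Real.pi) := fun i =>
      cwBody_of (hK i).1 ((hK i).2.resolve_right fun h => absurd h.1 (by omega))
    obtain rfl | rfl | rfl : k = 7 ∨ k = 8 ∨ k = 9 := by omega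
    · refine accommodates_translate (ring_centre (n := 6) le_rfl hB) c (key _ ?_)
      have := low_seven hb hd
      have h6 : Real.sin (Real.pi / (6 : ℕ)) = 1 / 2 := by
        push_cast
        exact Real.sin_pi_div_six
      have h62 : (1 : ℝ) / (1 / 2) = 2 := by norm_num
      rw [h6, h62]
      exact this
    · refine accommodates_translate (ring_centre (n := 7) (by norm_num) hB) c (key _ ?_)
      have := low_eight hb hd
      exact_mod_cast this
    · refine accommodates_translate (ring_centre (n := 8) (by norm_num) hB) c (key _ ?_)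
      have := low_nine hb hd
      exact_mod_cast this

end Pool.Agent.Helper57.CW
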