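import Pool.Agent.Helper57.CW.Defs

/-!
# Block CW-5: the regular hexagon of inradius `r` lies in the disk of radius `2 r / √3`

If `ip z (e (π j / 3)) ≤ r` for all `j`, then `‖z‖ ≤ 2 / √3 * r`. Write `z = ‖z‖ e φ`; some
`j` has `cos (φ - π j / 3) ≥ √3 / 2` (for `φ ∈ [0, 2 π)` take `j` the integer nearest to
`3 φ / π`, then `|φ - π j / 3| ≤ π / 6`), so `‖z‖ √3 / 2 ≤ r`. Alternatively square:
with `z = (x, y)` the six inequalities are `|x| ≤ r`, `|x + √3 y| ≤ 2 r`, `|x - √3 y| ≤ 2 r`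
(`j = 0, 3`, `j = 1, 4`, `j = 2, 5`), and `x² + y² ≤ 4 r² / 3` follows: if `|x| + √3 |y| ≤ 2 r`
and `|x| ≤ r` then with `u = |x|`, `v = |y|`: `3 v² ≤ (2 r - u)²` and
`3 (u² + v²) ≤ 3 u² + (2 r - u)² = 4 u² - 4 r u + 4 r² ≤ 4 r²`.
-/

namespace Pool.Agent.Helper57.CW

open Pool.Agent.Helper16.Disk7 Metric Complex

private lemma hex_core77 {x y s r : ℝ} (hs : 0 < s) (hs2 : s ^ 2 = 3) (hx : 0 ≤ x) (hy : 0 ≤ y)
    (h1 : x ≤ r) (h2 : x + s * y ≤ 2 * r) : 3 * (x ^ 2 + y ^ 2) ≤ 4 * r ^ 2 := by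
  have h3 : 0 ≤ s * y := mul_nonneg hs.le hy
  have h4 : (s * y) ^ 2 ≤ (2 * r - x) ^ 2 := by
    apply pow_le_pow_left₀ h3
    linarith
  have h5 : (s * y) ^ 2 = 3 * y ^ 2 := by
    rw [mul_pow, hs2]
  nlinarith [mul_nonneg hx (sub_nonneg.mpr h1)]

theorem norm_le_of_hexagon {z : ℂ} {r : ℝ}
    (h : ∀ j : ℕ, ip z (e (2 * (Real.pi / 6) * j)) ≤ r) : ‖z‖ ≤ 2 / √3 * r := by
  have hs : 0 < √3 := Real.sqrt_pos.mpr (by norm_num)
  have hs2 : √3 ^ 2 = 3 := Real.sq_sqrt (by norm_num)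
  have h0 := h 0
  have h1 := h 1
  have h2 := h 2
  have h3 := h 3
  have h4 := h 4
  have h5 := h 5
  rw [ip_e] at h0 h1 h2 h3 h4 h5
  rw [show (2 * (Real.pi / 6) * ((0 : ℕ) : ℝ)) = 0 by push_cast; ring, Real.cos_zero,
    Real.sin_zero] at h0
  rw [show (2 * (Real.pi / 6) * ((1 : ℕ) : ℝ)) = Real.pi / 3 by push_cast; ring,
    Real.cos_pi_div_three, Real.sin_pi_div_three] at h1
  rw [show (2 * (Real.pi / 6) * ((2 : ℕ) : ℝ)) = Real.pi - Real.pi / 3 by push_cast; ring,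
    Real.cos_pi_sub, Real.sin_pi_sub, Real.cos_pi_div_three, Real.sin_pi_div_three] at h2
  rw [show (2 * (Real.pi / 6) * ((3 : ℕ) : ℝ)) = Real.pi by push_cast; ring, Real.cos_pi,
    Real.sin_pi] at h3
  rw [show (2 * (Real.pi / 6) * ((4 : ℕ) : ℝ)) = Real.pi / 3 + Real.pi by push_cast; ring,
    Real.cos_add_pi, Real.sin_add_pi, Real.cos_pi_div_three, Real.sin_pi_div_three] at h4
  rw [show (2 * (Real.pi / 6) * ((5 : ℕ) : ℝ)) = 2 * Real.pi - Real.pi / 3 by push_cast; ring,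
    Real.cos_two_pi_sub, Real.sin_two_pi_sub, Real.cos_pi_div_three,
    Real.sin_pi_div_three] at h5
  have hr : 0 ≤ r := by linarith
  have key : 3 * (|z.re| ^ 2 + |z.im| ^ 2) ≤ 4 * r ^ 2 := by
    apply hex_core77 hs hs2 (abs_nonneg _) (abs_nonneg _)
    · exact abs_le.mpr ⟨by linarith, by linarith⟩
    · rcases abs_cases z.re with ⟨ha, _⟩ | ⟨ha, _⟩ <;>
        rcases abs_cases z.im with ⟨hb, _⟩ | ⟨hb, _⟩ <;> rw [ha, hb] <;> linarith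
  rw [sq_abs, sq_abs] at key
  have hn : ‖z‖ ^ 2 = z.re ^ 2 + z.im ^ 2 := by
    rw [← Complex.normSq_eq_norm_sq, Complex.normSq_apply]
    ring
  have hR : 0 ≤ 2 / √3 * r := by positivity
  apply le_of_sq_le_sq _ hR
  rw [hn]
  have h6 : (2 / √3 * r) ^ 2 = 4 * r ^ 2 / 3 := by
    rw [mul_pow, div_pow, hs2]
    ring
  rw [h6]
  linarith

end Pool.Agent.Helper57.CW
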