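import Pool.Agent.Helper57.CW.Supp

/-!
# Block CW-4: a body of constant width in a regular hexagon (Pal)

`K` a body of constant width `w`, `h = supportFn K` (continuous). Put
`E θ = h θ - h (θ + π / 3) + h (θ + 2 π / 3) - w / 2`. Then `E (θ + π) = - E θ`
(each `h (t + π) = w - h t`), so by the intermediate value theorem on `[0, π]` there is `θ`
with `E θ = 0`.

Choose `c` with `ip c (e θ) = h θ - w / 2` and `ip c (e (θ + 2 π / 3)) = h (θ + 2 π / 3) - w / 2`
(two linear equations with determinant `sin (2 π / 3) ≠ 0`; for instance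
`c = a * e θ + b * e (θ + π / 2)` with `a = h θ - w / 2` and
`b = (h (θ + 2 π / 3) - w / 2 + a / 2) / (√3 / 2)`).
As `e θ - e (θ + π / 3) + e (θ + 2 π / 3) = 0`, also
`ip c (e (θ + π / 3)) = h θ + h (θ + 2 π / 3) - w = h (θ + π / 3) - w / 2`.
For `z ∈ K` and `t ∈ {θ, θ + π / 3, θ + 2 π / 3}`: `ip (z - c) (e t) ≤ h t - ip c (e t) = w / 2`
and `ip (z - c) (e (t + π)) ≤ h (t + π) + ip c (e t) = w - h t + h t - w / 2 = w / 2`.
For a natural number `j` reduce modulo `6` (`e` is `2 π`-periodic: `j = 6 q + r`).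
-/

namespace Pool.Agent.Helper57.CW

open Pool.Agent.Helper16.Disk7 Metric Complex

private lemma ip_add_left (z z' v : ℂ) : ip (z + z') v = ip z v + ip z' v := by
  simp only [ip_eq, Complex.add_re, Complex.add_im]; ring

private lemma ip_sub_left (z z' v : ℂ) : ip (z - z') v = ip z v - ip z' v := by
  simp only [ip_eq, Complex.sub_re, Complex.sub_im]; ring

theorem hexagon {K : Set ℂ} {w : ℝ} (hK : CWBody K w) :
    ∃ (θ : ℝ) (c : ℂ), ∀ z ∈ K, ∀ j : ℕ,
      ip (z - c) (e (θ + 2 * (Real.pi / 6) * j)) ≤ w / 2 := by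
  have hh : ∀ t, supportFn K (t + Real.pi) = w - supportFn K t := fun t => by linarith [hK.width t]
  have hc : Continuous (supportFn K) := continuous_supportFn hK
  -- the angle
  obtain ⟨θ, hθ⟩ : ∃ θ, supportFn K θ - supportFn K (θ + Real.pi / 3) + supportFn K (θ + 2 * (Real.pi / 3)) - w / 2 = 0 := by
    set E : ℝ → ℝ := fun θ => supportFn K θ - supportFn K (θ + Real.pi / 3) + supportFn K (θ + 2 * (Real.pi / 3)) - w / 2
      with hE
    have hEc : Continuous E := by
      rw [hE]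
      fun_prop
    have h1 : E (0 + Real.pi) = -E 0 := by
      have e1 : (0 : ℝ) + Real.pi + Real.pi / 3 = (0 + Real.pi / 3) + Real.pi := by ring
      have e2 : (0 : ℝ) + Real.pi + 2 * (Real.pi / 3) = (0 + 2 * (Real.pi / 3)) + Real.pi := by ring
      rw [hE]
      simp only
      rw [e1, e2, hh, hh, hh]
      ring
    have h2 : (0 : ℝ) ∈ Set.range E := by
      rcases le_total (E 0) 0 with h | h
      · exact mem_range_of_exists_le_of_exists_ge hEc ⟨0, h⟩ ⟨0 + Real.pi, by rw [h1]; linarith⟩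
      · exact mem_range_of_exists_le_of_exists_ge hEc ⟨0 + Real.pi, by rw [h1]; linarith⟩ ⟨0, h⟩
    obtain ⟨θ, hθ⟩ := h2
    exact ⟨θ, hθ⟩
  -- the centre
  have hs3 : (0 : ℝ) < Real.sqrt 3 / 2 := by positivity
  set a : ℝ := supportFn K θ - w / 2 with ha
  set b : ℝ := (supportFn K (θ + 2 * (Real.pi / 3)) - w / 2 + a / 2) / (Real.sqrt 3 / 2) with hb
  have hb' : b * (Real.sqrt 3 / 2) = supportFn K (θ + 2 * (Real.pi / 3)) - w / 2 + a / 2 := by
    rw [hb, div_mul_cancel₀ _ hs3.ne']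
  set c : ℂ := (a : ℂ) * e θ + (b : ℂ) * e (θ + Real.pi / 2) with hcdef
  have hip : ∀ t, ip c (e (θ + t)) = a * Real.cos t + b * Real.sin t := by
    intro t
    rw [hcdef, ip_add_left, ip_smul, ip_smul, ip_e_e, ip_e_e]
    have e1 : θ - (θ + t) = -t := by ring
    have e2 : θ + Real.pi / 2 - (θ + t) = Real.pi / 2 - t := by ring
    rw [e1, e2, Real.cos_neg, Real.cos_pi_div_two_sub]
  have q0 : ip c (e (θ + 0)) = supportFn K (θ + 0) - w / 2 := by
    rw [hip, Real.cos_zero, Real.sin_zero, add_zero, ha]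
    ring
  have q1 : ip c (e (θ + Real.pi / 3)) = supportFn K (θ + Real.pi / 3) - w / 2 := by
    rw [hip, Real.cos_pi_div_three, Real.sin_pi_div_three, hb']
    linarith
  have q2 : ip c (e (θ + 2 * (Real.pi / 3))) = supportFn K (θ + 2 * (Real.pi / 3)) - w / 2 := by
    have e1 : 2 * (Real.pi / 3) = Real.pi - Real.pi / 3 := by ring
    rw [hip]
    have e2 : Real.cos (2 * (Real.pi / 3)) = -(1 / 2) := by rw [e1, Real.cos_pi_sub, Real.cos_pi_div_three]
    have e3 : Real.sin (2 * (Real.pi / 3)) = Real.sqrt 3 / 2 := by rw [e1, Real.sin_pi_sub, Real.sin_pi_div_three]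
    rw [e2, e3, hb']
    ring
  have hstep : ∀ t, ip c (e t) = supportFn K t - w / 2 → ip c (e (t + Real.pi)) = supportFn K (t + Real.pi) - w / 2 := by
    intro t ht
    rw [e_add_pi, ip_neg_right, ht, hh]
    ring
  have hall : ∀ j : ℕ, ip c (e (θ + 2 * (Real.pi / 6) * j)) = supportFn K (θ + 2 * (Real.pi / 6) * j) - w / 2 := by
    intro j
    induction j using Nat.strong_induction_on with
    | _ j ih =>
      match j with
      | 0 =>
        have e1 : θ + 2 * (Real.pi / 6) * ((0 : ℕ) : ℝ) = θ + 0 := by push_cast; ring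
        rw [e1]; exact q0
      | 1 =>
        have e1 : θ + 2 * (Real.pi / 6) * ((1 : ℕ) : ℝ) = θ + Real.pi / 3 := by push_cast; ring
        rw [e1]; exact q1
      | 2 =>
        have e1 : θ + 2 * (Real.pi / 6) * ((2 : ℕ) : ℝ) = θ + 2 * (Real.pi / 3) := by push_cast; ring
        rw [e1]; exact q2
      | n + 3 =>
        have e1 : θ + 2 * (Real.pi / 6) * ((n + 3 : ℕ) : ℝ) = (θ + 2 * (Real.pi / 6) * (n : ℝ)) + Real.pi := by push_cast; ring
        rw [e1]
        exact hstep _ (ih n (by omega))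
  refine ⟨θ, c, fun z hz j => ?_⟩
  rw [ip_sub_left, hall]
  have := ip_le_supp hK.isCompact hz (θ + 2 * (Real.pi / 6) * j)
  linarith

end Pool.Agent.Helper57.CW
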