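import Pool.Agent.Helper57.CW.Rot

/-!
# Bodies whose sum with a reflected copy is a disk

`RFBody K τ w`: `K` is a nonempty compact set with `h θ + h (τ - θ) = w`, `h` the support
function of `K`: the Minkowski sum of `K` and of its mirror image in the line through `0` of
direction `τ / 2` has the same support function as the disk of radius `w`.
-/

namespace Pool.Agent.Helper57.CW

open Pool.Agent.Helper16.Disk7 Metric Complex

/-- Nonempty compact sets with `h θ + h (τ - θ) = w`. -/
structure RFBody (K : Set ℂ) (τ w : ℝ) : Prop where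
  nonempty : K.Nonempty
  isCompact : IsCompact K
  sum : ∀ θ : ℝ, supportFn K θ + supportFn K (τ - θ) = w

lemma ip_refl (y : ℂ) (τ θ : ℝ) :
    ip (e τ * (starRingEnd ℂ) y) (e θ) = ip y (e (τ - θ)) := by
  rw [ip_e, ip_e, Complex.mul_re, Complex.mul_im, e_re, e_im, Complex.conj_re, Complex.conj_im,
    Real.cos_sub, Real.sin_sub]
  ring

/-- A support point of `K` in the direction `θ`, for a body contained in the disk of radius `w`
touching it from inside at each of its support points: the support points depend continuously on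
`θ` and give the derivative of the support function. -/
theorem supp_lip {K : Set ℂ} {w : ℝ} (hc : IsCompact K) (hw : 0 ≤ w) (x : ℝ → ℂ)
    (hx : ∀ θ, x θ ∈ K) (hs : ∀ θ, ip (x θ) (e θ) = supportFn K θ)
    (hq : ∀ θ, ∀ z ∈ K, ‖z - (x θ - (w : ℂ) * e θ)‖ ≤ w) (s t : ℝ) :
    ‖x s - x t‖ ≤ 2 * w * ‖e s - e t‖ := by
  set v := x s - (x t - (w : ℂ) * e t) with hv
  have h1 : ‖v‖ ≤ w := hq t _ (hx s)
  have h2 : w * Real.cos (s - t) ≤ ip v (e s) := by
    rw [hv, ip_sub_left, hs s, ip_sub_left, ip_smul, ip_e_e]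
    have h3 := ip_le_supp hc (hx t) s
    have h4 : Real.cos (t - s) = Real.cos (s - t) := by
      rw [← Real.cos_neg, neg_sub]
    rw [h4]
    linarith
  have h5 : ‖v - (w : ℂ) * e s‖ ^ 2 ≤ (w * ‖e s - e t‖) ^ 2 := by
    rw [sq_norm_sub, mul_pow, sq_norm_e_sub_e]
    have h6 : ‖v‖ ^ 2 ≤ w ^ 2 := by
      have := norm_nonneg v
      nlinarith
    nlinarith
  have h7 : ‖v - (w : ℂ) * e s‖ ≤ w * ‖e s - e t‖ :=
    (sq_le_sq₀ (norm_nonneg _) (mul_nonneg hw (norm_nonneg _))).1 h5
  have h8 : x s - x t = (v - (w : ℂ) * e s) + (w : ℂ) * (e s - e t) := by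
    rw [hv]
    ring
  rw [h8]
  refine (norm_add_le _ _).trans ?_
  rw [norm_mul, Complex.norm_real, Real.norm_of_nonneg hw]
  linarith

lemma norm_e_sub_e_le (s t : ℝ) : ‖e s - e t‖ ≤ |s - t| := by
  have h1 := sq_norm_e_sub_e s t
  have h2 : 1 - (s - t) ^ 2 / 2 ≤ Real.cos (s - t) := Real.one_sub_sq_div_two_le_cos
  have h3 : ‖e s - e t‖ ^ 2 ≤ |s - t| ^ 2 := by
    rw [h1, sq_abs]
    linarith
  exact (sq_le_sq₀ (norm_nonneg _) (abs_nonneg _)).1 h3

theorem continuous_of_lip {x : ℝ → ℂ} {w : ℝ} (h : ∀ s t, ‖x s - x t‖ ≤ 2 * w * ‖e s - e t‖) :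
    Continuous x := by
  rw [continuous_iff_continuousAt]
  intro t
  rw [ContinuousAt, tendsto_iff_norm_sub_tendsto_zero]
  have h1 : Filter.Tendsto (fun s => 2 * w * ‖e s - e t‖) (nhds t) (nhds 0) := by
    have h2 : Continuous fun s => 2 * w * ‖e s - e t‖ := by
      have := continuous_e
      fun_prop
    have h3 := h2.tendsto t
    simpa using h3
  exact squeeze_zero (fun s => norm_nonneg _) (fun s => h s t) h1

lemma ip_comm (z w : ℂ) : ip z w = ip w z := by
  rw [ip_eq, ip_eq]; ring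

lemma ip_le_norm_mul (z w : ℂ) : ip z w ≤ ‖z‖ * ‖w‖ := by
  have h := Complex.re_le_norm (z * (starRingEnd ℂ) w)
  rw [norm_mul, Complex.norm_conj] at h
  exact h

lemma e_add (θ α : ℝ) :
    e (θ + α) = (Real.cos α : ℂ) * e θ + (Real.sin α : ℂ) * e (θ + Real.pi / 2) := by
  apply Complex.ext
  · simp only [Complex.add_re, Complex.mul_re, Complex.ofReal_re, Complex.ofReal_im, e_re, e_im,
      zero_mul, sub_zero, Real.cos_add, Real.cos_pi_div_two, Real.sin_pi_div_two]
    ring
  · simp only [Complex.add_im, Complex.mul_im, Complex.ofReal_re, Complex.ofReal_im, e_re, e_im,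
      zero_mul, add_zero, Real.sin_add, Real.cos_pi_div_two, Real.sin_pi_div_two]
    ring

lemma ip_e_add (z : ℂ) (θ α : ℝ) :
    ip z (e (θ + α)) = Real.cos α * ip z (e θ) + Real.sin α * ip z (e (θ + Real.pi / 2)) := by
  rw [e_add, ip_comm, ip_add_left, ip_smul, ip_smul, ip_comm (e θ), ip_comm (e (θ + _))]

theorem hasDerivAt_supportFn {K : Set ℂ} {w : ℝ} (hc : IsCompact K) (x : ℝ → ℂ)
    (hx : ∀ θ, x θ ∈ K) (hs : ∀ θ, ip (x θ) (e θ) = supportFn K θ) (hw : 0 ≤ w)
    (hl : ∀ s t, ‖x s - x t‖ ≤ 2 * w * ‖e s - e t‖) (t : ℝ) :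
    HasDerivAt (supportFn K) (ip (x t) (e (t + Real.pi / 2))) t := by
  -- the linear part
  have h1 : HasDerivAt (fun s => ip (x t) (e s)) (ip (x t) (e (t + Real.pi / 2))) t := by
    simp only [ip_e]
    rw [Real.cos_add_pi_div_two, Real.sin_add_pi_div_two]
    have h2 := ((Real.hasDerivAt_cos t).const_mul (x t).re).add
      ((Real.hasDerivAt_sin t).const_mul (x t).im)
    exact h2
  -- the difference is of second order
  have h2 : HasDerivAt (fun s => supportFn K s - ip (x t) (e s)) 0 t := by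
    have h3 : (fun s => supportFn K s - ip (x t) (e s)) =O[nhds t] fun s => ‖s - t‖ ^ 2 := by
      refine Asymptotics.IsBigO.of_bound (2 * w) (Filter.Eventually.of_forall fun s => ?_)
      have h4 : 0 ≤ supportFn K s - ip (x t) (e s) := by
        have := ip_le_supp hc (hx t) s
        linarith
      have h5 : supportFn K s - ip (x t) (e s) ≤ ip (x s - x t) (e s - e t) := by
        have h6 := ip_le_supp hc (hx s) t
        rw [← hs t] at h6
        have h7 : ip (x s - x t) (e s - e t) =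
            ip (x s) (e s) - ip (x t) (e s) - (ip (x s) (e t) - ip (x t) (e t)) := by
          simp only [ip_eq, Complex.sub_re, Complex.sub_im]
          ring
        rw [h7, hs s]
        linarith
      have h8 : ip (x s - x t) (e s - e t) ≤ 2 * w * ‖s - t‖ ^ 2 := by
        calc ip (x s - x t) (e s - e t) ≤ ‖x s - x t‖ * ‖e s - e t‖ := ip_le_norm_mul _ _
          _ ≤ (2 * w * ‖e s - e t‖) * ‖e s - e t‖ :=
              mul_le_mul_of_nonneg_right (hl s t) (norm_nonneg _)
          _ = 2 * w * ‖e s - e t‖ ^ 2 := by ring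
          _ ≤ 2 * w * ‖s - t‖ ^ 2 := by
              refine mul_le_mul_of_nonneg_left ?_ (by linarith)
              exact pow_le_pow_left₀ (norm_nonneg _) (norm_e_sub_e_le s t) 2
      rw [Real.norm_of_nonneg h4, Real.norm_of_nonneg (by positivity)]
      linarith
    have h4 := h3.hasFDerivAt (𝕜 := ℝ) (by norm_num)
    have h5 := h4.hasDerivAt
    simpa using h5
  have h3 := h1.add h2
  have h4 : (fun s => ip (x t) (e s)) + (fun s => supportFn K s - ip (x t) (e s)) =
      supportFn K := by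
    funext s
    simp
  rw [h4, add_zero] at h3
  exact h3

theorem norm_add_refl_le {K : Set ℂ} {τ w : ℝ} (hK : RFBody K τ w) {y z : ℂ} (hy : y ∈ K)
    (hz : z ∈ K) : ‖z + e τ * (starRingEnd ℂ) y‖ ≤ w := by
  refine norm_le_of_ip fun θ => ?_
  rw [ip_add_left, ip_refl]
  have h1 := ip_le_supp hK.isCompact hz θ
  have h2 := ip_le_supp hK.isCompact hy (τ - θ)
  linarith [hK.sum θ]

theorem exists_supp_refl {K : Set ℂ} {τ w : ℝ} (hK : RFBody K τ w) :
    0 ≤ w ∧
    ∃ x : ℝ → ℂ, Continuous x ∧ (∀ θ, x θ ∈ K) ∧ (∀ θ, ip (x θ) (e θ) = supportFn K θ) ∧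
      (∀ θ, e τ * (starRingEnd ℂ) (x (τ - θ)) = (w : ℂ) * e θ - x θ) ∧
      (∀ θ, ∀ z ∈ K, ‖z - (x θ - (w : ℂ) * e θ)‖ ≤ w) ∧
      ∀ t, HasDerivAt (supportFn K) (ip (x t) (e (t + Real.pi / 2))) t := by
  have hw : 0 ≤ w := by
    obtain ⟨z, hz⟩ := hK.nonempty
    exact (norm_nonneg _).trans (norm_add_refl_le hK hz hz)
  choose x hx hs using fun θ => exists_attain hK.isCompact hK.nonempty θ
  have ho : ∀ θ, e τ * (starRingEnd ℂ) (x (τ - θ)) = (w : ℂ) * e θ - x θ := by
    intro θ
    have h1 : ‖x θ + e τ * (starRingEnd ℂ) (x (τ - θ))‖ ≤ w := norm_add_refl_le hK (hx _) (hx _)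
    have h2 : ip (x θ + e τ * (starRingEnd ℂ) (x (τ - θ))) (e θ) = w := by
      rw [ip_add_left, ip_refl, hs, hs]
      exact hK.sum θ
    have h4 : ‖(x θ + e τ * (starRingEnd ℂ) (x (τ - θ))) - (w : ℂ) * e θ‖ ^ 2 ≤ 0 := by
      rw [sq_norm_sub, h2]
      have := norm_nonneg (x θ + e τ * (starRingEnd ℂ) (x (τ - θ)))
      nlinarith
    have h5 : ‖(x θ + e τ * (starRingEnd ℂ) (x (τ - θ))) - (w : ℂ) * e θ‖ = 0 := by
      have := sq_nonneg ‖(x θ + e τ * (starRingEnd ℂ) (x (τ - θ))) - (w : ℂ) * e θ‖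
      exact pow_eq_zero_iff (two_ne_zero) |>.1 (le_antisymm h4 this)
    have h6 := norm_eq_zero.1 h5
    linear_combination h6
  have hq : ∀ θ, ∀ z ∈ K, ‖z - (x θ - (w : ℂ) * e θ)‖ ≤ w := by
    intro θ z hz
    have h1 : z - (x θ - (w : ℂ) * e θ) = z + e τ * (starRingEnd ℂ) (x (τ - θ)) := by
      rw [ho θ]
      ring
    rw [h1]
    exact norm_add_refl_le hK (hx _) hz
  have hl := supp_lip hK.isCompact hw x hx hs hq
  exact ⟨hw, x, continuous_of_lip hl, hx, hs, ho, hq,
    hasDerivAt_supportFn hK.isCompact x hx hs hw hl⟩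

theorem perimeter_refl {K : Set ℂ} {τ w : ℝ} (hK : RFBody K τ w) :
    perimeter K = Real.pi * w := by
  obtain ⟨-, x, -, -, -, -, -, hd⟩ := exists_supp_refl hK
  have hc : Continuous (supportFn K) := continuous_iff_continuousAt.2 fun t => (hd t).continuousAt
  have h1 : IntervalIntegrable (supportFn K) MeasureTheory.volume 0 (2 * Real.pi) :=
    hc.intervalIntegrable _ _
  have h2 : IntervalIntegrable (fun θ => supportFn K (τ - θ)) MeasureTheory.volume 0
      (2 * Real.pi) := (hc.comp (continuous_const.sub continuous_id)).intervalIntegrable _ _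
  have h3 : ∫ θ in (0 : ℝ)..(2 * Real.pi), supportFn K (τ - θ) = perimeter K := by
    rw [intervalIntegral.integral_comp_sub_left (fun θ => supportFn K θ) τ, perimeter]
    have h4 := (supportFn_periodic K).intervalIntegral_add_eq (τ - 2 * Real.pi) 0
    rw [zero_add] at h4
    rw [← h4]
    congr 1
    ring
  have h5 : ∫ θ in (0 : ℝ)..(2 * Real.pi), (supportFn K θ + supportFn K (τ - θ)) =
      2 * Real.pi * w := by
    rw [intervalIntegral.integral_congr (g := fun _ => w) (fun θ _ => hK.sum θ)]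
    simp
  rw [intervalIntegral.integral_add h1 h2, h3, ← perimeter] at h5
  linarith

theorem sector_refl {K : Set ℂ} {τ w : ℝ} (hK : RFBody K τ w) {γ : ℝ} (h0 : 0 < γ)
    (h1 : γ ≤ Real.pi / 2) :
    ∃ (θ : ℝ) (O : ℂ), ∀ z ∈ K,
      ip (z - O) (e (θ + (Real.pi / 2 + γ))) ≤ 0 ∧
      ip (z - O) (e (θ - (Real.pi / 2 + γ))) ≤ 0 ∧
      ‖z - O‖ ≤ w / 2 * (1 + 1 / Real.sin γ) := by
  obtain ⟨hw, x, hx, hxK, hs, ho, hq, hd⟩ := exists_supp_refl hK
  have hsin : 0 < Real.sin γ := Real.sin_pos_of_pos_of_lt_pi h0 (by linarith [Real.pi_pos])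
  have hsin1 : Real.sin γ ≤ 1 := Real.sin_le_one γ
  obtain ⟨R, hR⟩ : ∃ R, R = w / 2 * (1 + 1 / Real.sin γ) := ⟨_, rfl⟩
  obtain ⟨α, hα⟩ : ∃ α, α = Real.pi / 2 + γ := ⟨_, rfl⟩
  rw [← hR, ← hα]
  have hcos : Real.cos α = -Real.sin γ := by
    rw [hα, add_comm, Real.cos_add_pi_div_two]
  have h2R : (2 * R - w) * Real.cos α = -w := by
    rw [hcos, hR]
    field_simp
    ring
  have h2R' : (2 * R - w) * Real.cos (-α) = -w := by rw [Real.cos_neg, h2R]
  have hRw : w ≤ R := by
    have h3 : 1 ≤ 1 / Real.sin γ := by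
      rw [le_div_iff₀ hsin]
      linarith
    rw [hR]
    nlinarith
  have hhc : Continuous (supportFn K) := continuous_iff_continuousAt.2 fun t => (hd t).continuousAt
  obtain ⟨F, hF⟩ : ∃ F : ℝ → ℝ → ℝ, F = fun a θ => supportFn K (θ + a) -
      ip (x θ - (R : ℂ) * e θ) (e (θ + a)) := ⟨_, rfl⟩
  have hFc : ∀ a, Continuous (F a) := by
    intro a
    rw [hF]
    have he := continuous_e
    unfold ip
    fun_prop
  have hanti : ∀ a : ℝ, (2 * R - w) * Real.cos a = -w → ∀ θ : ℝ,
      F a (τ - θ) = -F (-a) θ := by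
    intro a ha θ
    have h3 : τ - θ + a = τ - (θ + -a) := by ring
    have h4 := hK.sum (θ + -a)
    have h5 : ip (x (τ - θ)) (e (τ - (θ + -a))) = ip ((w : ℂ) * e θ - x θ) (e (θ + -a)) := by
      rw [← ho θ, ip_refl]
    have h6 : ip (e (τ - θ)) (e (τ - (θ + -a))) = Real.cos a := by
      rw [ip_e_e, ← Real.cos_neg]
      congr 1
      ring
    have h7 : ip (e θ) (e (θ + -a)) = Real.cos a := by
      rw [ip_e_e]
      congr 1
      ring
    rw [hF]
    simp only
    rw [h3, ip_sub_left, ip_sub_left, ip_smul, ip_smul, h5, h6, h7, ip_sub_left, ip_smul, h7]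
    linarith
  -- the mean value of `F α` is zero
  have hmean : ∀ a : ℝ, (2 * R - w) * Real.cos a = -w →
      ∫ θ in (0 : ℝ)..(2 * Real.pi), F a θ = 0 := by
    intro a ha
    have h3 : ∀ θ, F a θ = supportFn K (θ + a) - Real.cos a * supportFn K θ -
        Real.sin a * ip (x θ) (e (θ + Real.pi / 2)) + R * Real.cos a := by
      intro θ
      have h7 : ip (e θ) (e (θ + a)) = Real.cos a := by
        rw [ip_e_e, ← Real.cos_neg]
        congr 1
        ring
      rw [hF]
      simp only
      rw [ip_sub_left, ip_smul, h7, ip_e_add, hs]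
      ring
    have hi1 : IntervalIntegrable (fun θ => supportFn K (θ + a)) MeasureTheory.volume 0
        (2 * Real.pi) := (hhc.comp (continuous_id.add continuous_const)).intervalIntegrable _ _
    have hi2 : IntervalIntegrable (fun θ => Real.cos a * supportFn K θ) MeasureTheory.volume 0
        (2 * Real.pi) := (continuous_const.mul hhc).intervalIntegrable _ _
    have hc3 : Continuous fun θ => ip (x θ) (e (θ + Real.pi / 2)) := by
      have he := continuous_e
      unfold ip
      fun_prop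
    have hi3 : IntervalIntegrable (fun θ => Real.sin a * ip (x θ) (e (θ + Real.pi / 2)))
        MeasureTheory.volume 0 (2 * Real.pi) := (continuous_const.mul hc3).intervalIntegrable _ _
    have hper : ∫ θ in (0 : ℝ)..(2 * Real.pi), supportFn K (θ + a) = perimeter K := by
      rw [intervalIntegral.integral_comp_add_right (fun θ => supportFn K θ) a, perimeter]
      have h4 := (supportFn_periodic K).intervalIntegral_add_eq (0 + a) 0
      rw [zero_add] at h4 ⊢
      rw [zero_add] at h4
      rw [add_comm (2 * Real.pi) a]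
      exact h4
    have hder : ∫ θ in (0 : ℝ)..(2 * Real.pi), ip (x θ) (e (θ + Real.pi / 2)) = 0 := by
      rw [intervalIntegral.integral_eq_sub_of_hasDerivAt (f := supportFn K)
        (fun t _ => hd t) (hc3.intervalIntegrable _ _)]
      have h4 := supportFn_periodic K 0
      rw [zero_add] at h4
      rw [h4, sub_self]
    rw [intervalIntegral.integral_congr (fun θ _ => h3 θ),
      intervalIntegral.integral_add ((hi1.sub hi2).sub hi3) intervalIntegrable_const,
      intervalIntegral.integral_sub (hi1.sub hi2) hi3, intervalIntegral.integral_sub hi1 hi2,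
      intervalIntegral.integral_const_mul, intervalIntegral.integral_const_mul, hder, hper,
      ← perimeter, perimeter_refl hK, intervalIntegral.integral_const]
    simp only [smul_eq_mul]
    linear_combination Real.pi * ha
  have hsign : ∀ a : ℝ, (2 * R - w) * Real.cos a = -w → ¬ ∀ θ, 0 < F a θ := by
    intro a ha hpos
    have h3 := hmean a ha
    have h4 : 0 < ∫ θ in (0 : ℝ)..(2 * Real.pi), F a θ :=
      intervalIntegral.intervalIntegral_pos_of_pos ((hFc a).intervalIntegrable _ _) hpos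
        (by positivity)
    linarith
  obtain ⟨θ, hθA, hθB⟩ : ∃ θ, F α θ ≤ 0 ∧ F (-α) θ ≤ 0 := by
    by_contra hne
    push Not at hne
    -- no point of the closed third quadrant, hence none of the first one
    have hne' : ∀ θ, 0 ≤ F α θ → F (-α) θ < 0 := by
      intro θ h3
      by_contra h4
      push Not at h4
      have h5 : F α (τ - θ) ≤ 0 := by
        rw [hanti α h2R]
        linarith
      have h6 : F (-α) (τ - θ) ≤ 0 := by
        rw [hanti (-α) h2R', neg_neg]
        linarith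
      have := hne _ h5
      linarith
    have hne0 : ∀ θ, F α θ ≠ 0 := by
      intro θ h3
      have h4 := hne θ h3.le
      have h5 := hne' θ h3.ge
      linarith
    have hcase : (∀ θ, 0 < F α θ) ∨ ∀ θ, F α θ < 0 := by
      by_contra hcon
      push Not at hcon
      obtain ⟨⟨a, ha⟩, ⟨b, hb⟩⟩ := hcon
      obtain ⟨c, hc⟩ := mem_range_of_exists_le_of_exists_ge (hFc α) ⟨a, ha⟩ ⟨b, hb⟩
      exact hne0 c hc
    rcases hcase with h3 | h3
    · exact hsign α h2R h3
    · exact hsign (-α) h2R' fun θ => hne θ (h3 θ).le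
  rw [hF] at hθA hθB
  simp only at hθA hθB
  refine ⟨θ, x θ - (R : ℂ) * e θ, fun z hzK => ⟨?_, ?_, ?_⟩⟩
  · have h3 := ip_le_supp hK.isCompact hzK (θ + α)
    rw [ip_sub_left]
    linarith
  · have h3 := ip_le_supp hK.isCompact hzK (θ + (-α))
    rw [sub_eq_add_neg θ α, ip_sub_left]
    linarith
  · have h3 : z - (x θ - (R : ℂ) * e θ) =
        (z - (x θ - (w : ℂ) * e θ)) + ((R - w : ℝ) : ℂ) * e θ := by
      push_cast
      ring
    rw [h3]
    refine (norm_add_le _ _).trans ?_
    rw [norm_mul, norm_e, mul_one, Complex.norm_real, Real.norm_of_nonneg (by linarith)]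
    have h4 := hq θ z hzK
    linarith

end Pool.Agent.Helper57.CW
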