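import Pool.Agent.Helper57.CW.Sector
import Pool.Agent.Helper57.CW.Hexagon
import Pool.Agent.Helper57.CW.HexBall
import Pool.Agent.Helper57.CW.Cells

/-!
# `n` bodies of constant width in a ring, and one more in the centre

`γ = π / n`, `R = w / 2 * (1 + 1 / sin γ)`.
-/

namespace Pool.Agent.Helper57.CW

open Pool.Agent.Helper16.Disk7 Metric Complex

theorem accommodates_translate {k : ℕ} {R : ℝ} {K : Fin k → Set ℂ}
    (h : Accommodates (closedBall (0 : ℂ) R) K) (c : ℂ) {R' : ℝ} (hR : R ≤ R') :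
    Accommodates (closedBall c R') K := by
  obtain ⟨g, hg, hsub, hdis⟩ := h
  have himg : ∀ i, (fun z => g i z + c) '' K i = (Homeomorph.addRight c) '' (g i '' K i) := by
    intro i
    rw [Set.image_image]
    rfl
  refine ⟨fun i z => g i z + c, ?_, ?_, ?_⟩
  · intro i
    obtain ⟨a, b, ha, hab⟩ := hg i
    exact ⟨a, b + c, ha, fun z => by
      change g i z + c = _
      rw [hab z]; ring⟩
  · rintro i _ ⟨z, hz, rfl⟩
    have h1 := hsub i ⟨z, hz, rfl⟩
    rw [mem_closedBall_zero_iff] at h1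
    rw [mem_closedBall, dist_eq_norm, add_sub_cancel_right]
    exact h1.trans hR
  · intro i j hij
    rw [himg, himg, ← Homeomorph.image_interior, ← Homeomorph.image_interior,
      Set.disjoint_image_iff (Homeomorph.injective _)]
    exact hdis i j hij

lemma rigid (a O : ℂ) (ha : ‖a‖ = 1) : IsRigidMotion (fun z => a * (z - O)) :=
  ⟨a, -(a * O), ha, fun z => by ring⟩

/-- A body of constant width placed in the cell of index `j`. -/
theorem place_sector {n : ℕ} (hn : 2 ≤ n) {w : ℝ} {K : Set ℂ} (hK : CWBody K w) (j : ℕ) :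
    ∃ g : ℂ → ℂ, IsRigidMotion g ∧ g '' K ⊆ cell n j ∧
      (∀ z ∈ g '' K, ‖z‖ ≤ w / 2 * (1 + 1 / Real.sin (Real.pi / n))) ∧
      ∀ z ∈ g '' K, w / 2 * (1 + 1 / Real.sin (Real.pi / n)) - w ≤
        ip z (e (2 * (Real.pi / n) * j)) := by
  have hn' : (2 : ℝ) ≤ n := by exact_mod_cast hn
  have hpos : (0 : ℝ) < n := by linarith
  have h0 : 0 < Real.pi / n := div_pos Real.pi_pos hpos
  have h1 : Real.pi / n ≤ Real.pi / 2 :=
    div_le_div_of_nonneg_left Real.pi_pos.le (by norm_num) hn'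
  obtain ⟨θ, O, h⟩ := sector hK h0 h1
  have key : ∀ (z : ℂ) (b : ℝ), ip (e (2 * (Real.pi / n) * j - θ) * (z - O))
      (e (2 * (Real.pi / n) * j + b)) = ip (z - O) (e (θ + b)) := by
    intro z b
    rw [← ip_rot (z - O) (2 * (Real.pi / n) * j - θ) (θ + b)]
    congr 2
    ring
  refine ⟨fun z => e (2 * (Real.pi / n) * j - θ) * (z - O), rigid _ _ (norm_e _), ?_, ?_, ?_⟩
  · rintro _ ⟨z, hz, rfl⟩
    obtain ⟨a1, a2, a3, a4⟩ := h z hz
    refine ⟨?_, ?_⟩
    · simp only
      rw [key]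
      exact a1
    · have h5 := key z (-(Real.pi / 2 + Real.pi / n))
      rw [← sub_eq_add_neg, ← sub_eq_add_neg] at h5
      simp only
      rw [h5]
      exact a2
  · rintro _ ⟨z, hz, rfl⟩
    simp only
    rw [norm_mul, norm_e, one_mul]
    exact (h z hz).2.2.1
  · rintro _ ⟨z, hz, rfl⟩
    have h5 := key z 0
    rw [add_zero, add_zero] at h5
    simp only
    rw [h5]
    exact (h z hz).2.2.2

theorem ring {n : ℕ} (hn : 2 ≤ n) {w : ℝ} {K : Fin n → Set ℂ} (hK : ∀ i, CWBody (K i) w) :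
    Accommodates (closedBall (0 : ℂ) (w / 2 * (1 + 1 / Real.sin (Real.pi / n)))) K := by
  choose g hg hcell hball hsep using fun i : Fin n => place_sector hn (hK i) (i : ℕ)
  refine ⟨g, hg, fun i z hz => mem_closedBall_zero_iff.2 (hball i z hz), fun i j hij => ?_⟩
  exact (disjoint_cells hn i.2 j.2 (fun h => hij (Fin.ext h))).mono
    (interior_mono (hcell i)) (interior_mono (hcell j))

theorem ring_centre {n : ℕ} (hn : 6 ≤ n) {w : ℝ} {K : Fin (n + 1) → Set ℂ}
    (hK : ∀ i, CWBody (K i) w) :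
    Accommodates (closedBall (0 : ℂ) (w / 2 * (1 + 1 / Real.sin (Real.pi / n)))) K := by
  have hn2 : 2 ≤ n := by omega
  have hw : 0 ≤ w := (exists_supp (hK 0)).1
  have hn' : (6 : ℝ) ≤ n := by exact_mod_cast hn
  have hpos : (0 : ℝ) < n := by linarith
  set R := w / 2 * (1 + 1 / Real.sin (Real.pi / n)) with hR
  have h0 : 0 < Real.pi / n := div_pos Real.pi_pos hpos
  have hsin0 : 0 < Real.sin (Real.pi / n) := by
    apply Real.sin_pos_of_pos_of_lt_pi h0
    rw [div_lt_iff₀ hpos]
    nlinarith [Real.pi_pos]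
  have hsin1 : Real.sin (Real.pi / n) ≤ Real.pi / n := Real.sin_le h0.le
  -- the centre body
  obtain ⟨θ, c, hhex⟩ := hexagon (hK (Fin.last n))
  have key : ∀ (z : ℂ) (b : ℝ), ip (e (-θ) * (z - c)) (e b) = ip (z - c) (e (θ + b)) := by
    intro z b
    rw [← ip_rot (z - c) (-θ) (θ + b)]
    congr 2
    ring
  have hc1 : ∀ z ∈ (fun z => e (-θ) * (z - c)) '' K (Fin.last n), ∀ j : ℕ,
      ip z (e (2 * (Real.pi / 6) * j)) ≤ w / 2 := by
    rintro _ ⟨z, hz, rfl⟩ j
    simp only
    rw [key]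
    exact hhex z hz j
  have hc2 : ∀ z ∈ (fun z => e (-θ) * (z - c)) '' K (Fin.last n), ‖z‖ ≤ 2 / √3 * (w / 2) :=
    fun z hz => norm_le_of_hexagon (hc1 z hz)
  have hsqrt : 2 / √3 ≤ 6 / 5 := by
    rw [div_le_div_iff₀ (by positivity) (by norm_num)]
    have : (5 / 3 : ℝ) ≤ √3 := by
      apply Real.le_sqrt_of_sq_le
      norm_num
    linarith
  have hc3 : ∀ z ∈ (fun z => e (-θ) * (z - c)) '' K (Fin.last n), ∀ j : ℕ,
      ip z (e (2 * (Real.pi / n) * j)) ≤ R - w := by
    intro z hz j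
    rcases Nat.eq_or_lt_of_le hn with h6 | h7
    · have hs : Real.sin (Real.pi / n) = 1 / 2 := by
        rw [← h6]
        push_cast
        exact Real.sin_pi_div_six
      have h1 := hc1 z hz j
      rw [hR, hs, ← h6]
      push_cast
      have : w / 2 * (1 + 1 / (1 / 2)) - w = w / 2 := by ring
      rw [this]
      exact h1
    · have h7' : (7 : ℝ) ≤ n := by exact_mod_cast h7
      have h1 : (n : ℝ) / Real.pi ≤ 1 / Real.sin (Real.pi / n) := by
        have : (n : ℝ) / Real.pi = 1 / (Real.pi / n) := by rw [one_div_div]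
        rw [this]
        exact one_div_le_one_div_of_le hsin0 hsin1
      have h2 : (11 / 5 : ℝ) ≤ n / Real.pi := by
        rw [le_div_iff₀ Real.pi_pos]
        linarith [Real.pi_lt_d2]
      have h3 : ip z (e (2 * (Real.pi / n) * j)) ≤ ‖z‖ := ip_le_norm _ _ (norm_e _)
      have h4 := hc2 z hz
      have h5 : 2 / √3 * (w / 2) ≤ 6 / 5 * (w / 2) :=
        mul_le_mul_of_nonneg_right hsqrt (by linarith)
      have h6 : w / 2 * (1 + 11 / 5) ≤ R := by
        rw [hR]
        exact mul_le_mul_of_nonneg_left (by linarith) (by linarith)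
      linarith
  have hRw : w / 2 * (1 + 1) ≤ R := by
    rw [hR]
    refine mul_le_mul_of_nonneg_left ?_ (by linarith)
    have : 1 ≤ 1 / Real.sin (Real.pi / n) := by
      rw [le_div_iff₀ hsin0]
      linarith [Real.sin_le_one (Real.pi / n)]
    linarith
  have hc4 : ∀ z ∈ (fun z => e (-θ) * (z - c)) '' K (Fin.last n), ‖z‖ ≤ R := by
    intro z hz
    have h4 := hc2 z hz
    have h5 : 2 / √3 * (w / 2) ≤ 6 / 5 * (w / 2) :=
      mul_le_mul_of_nonneg_right hsqrt (by linarith)
    linarith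
  -- the ring
  choose g hg hcell hball hsep using
    fun i : Fin n => place_sector hn2 (hK i.castSucc) (i : ℕ)
  set G : Fin (n + 1) → ℂ → ℂ := Fin.snoc (α := fun _ => ℂ → ℂ) g (fun z => e (-θ) * (z - c))
    with hG
  have hG1 : ∀ i : Fin n, G i.castSucc = g i := fun i => by rw [hG, Fin.snoc_castSucc]
  have hG2 : G (Fin.last n) = fun z => e (-θ) * (z - c) := by rw [hG, Fin.snoc_last]
  have hsepc : ∀ i : Fin n, Disjoint (interior (G (Fin.last n) '' K (Fin.last n)))
      (interior (G i.castSucc '' K i.castSucc)) := by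
    intro i
    rw [hG1, hG2]
    exact disjoint_interior_of_sep (fun z hz => hc3 z hz i) (hsep i)
  refine ⟨G, ?_, ?_, ?_⟩
  · intro i
    refine Fin.lastCases ?_ (fun i => ?_) i
    · rw [hG2]
      exact rigid _ _ (norm_e _)
    · rw [hG1]
      exact hg i
  · intro i
    refine Fin.lastCases ?_ (fun i => ?_) i
    · rw [hG2]
      exact fun z hz => mem_closedBall_zero_iff.2 (hc4 z hz)
    · rw [hG1]
      exact fun z hz => mem_closedBall_zero_iff.2 (hball i z hz)
  · intro i
    refine Fin.lastCases ?_ (fun i => ?_) i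
    · intro j
      refine Fin.lastCases (fun h => (h rfl).elim) (fun j _ => hsepc j) j
    · intro j
      refine Fin.lastCases (fun _ => (hsepc i).symm) (fun j hij => ?_) j
      rw [hG1, hG1]
      exact (disjoint_cells hn2 i.2 j.2 (fun h => hij (by rw [Fin.ext h]))).mono
        (interior_mono (hcell i)) (interior_mono (hcell j))

end Pool.Agent.Helper57.CW
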