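import Pool.Agent.Helper57.CW.Ring

/-!
# Bodies whose sum with a rotated copy is a disk

`RCBody K β w`: `K` is a nonempty compact set with `h θ + h (θ + β) = w`, `h` the support
function of `K`, that is, the Minkowski sum of `K` and of its copy rotated by `-β` has the same
support function as the disk of radius `w`. For `β = π` these are the sets of constant width.
Such a set lies in every circular sector of inradius `w / 2` and angle at most `π`.
-/

namespace Pool.Agent.Helper57.CW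

open Pool.Agent.Helper16.Disk7 Metric Complex

/-- `K` and some rotated copy of `K` have as Minkowski sum a disk, in terms of the support
function: `h θ + h (θ + β)` does not depend on `θ`, for some angle `β`. -/
def RotationComplementary (K : Set ℂ) : Prop :=
  ∃ β w : ℝ, ∀ θ : ℝ, supportFn K θ + supportFn K (θ + β) = w

/-- Nonempty compact sets with `h θ + h (θ + β) = w`. -/
structure RCBody (K : Set ℂ) (β w : ℝ) : Prop where
  nonempty : K.Nonempty
  isCompact : IsCompact K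
  sum : ∀ θ : ℝ, supportFn K θ + supportFn K (θ + β) = w

lemma sq_norm_sub (v : ℂ) (r θ : ℝ) :
    ‖v - (r : ℂ) * e θ‖ ^ 2 = ‖v‖ ^ 2 - 2 * r * ip v (e θ) + r ^ 2 := by
  rw [Complex.sq_norm, Complex.sq_norm, Complex.normSq_apply, Complex.normSq_apply, ip_e]
  simp only [Complex.sub_re, Complex.sub_im, Complex.mul_re, Complex.mul_im, Complex.ofReal_re,
    Complex.ofReal_im, e_re, e_im]
  have h := Real.sin_sq_add_cos_sq θ
  linear_combination r ^ 2 * h

lemma sq_norm_e_sub_e (s t : ℝ) : ‖e s - e t‖ ^ 2 = 2 - 2 * Real.cos (s - t) := by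
  have h := sq_norm_sub (e s) 1 t
  rw [Complex.ofReal_one, one_mul, norm_e, ip_e_e] at h
  rw [h]
  ring

lemma exists_attain {K : Set ℂ} (hc : IsCompact K) (hne : K.Nonempty) (θ : ℝ) :
    ∃ z ∈ K, ip z (e θ) = supportFn K θ := by
  have h1 : IsCompact ((fun z : ℂ => z.re * Real.cos θ + z.im * Real.sin θ) '' K) :=
    hc.image (by fun_prop)
  obtain ⟨z, hz, h2⟩ := h1.sSup_mem (hne.image _)
  exact ⟨z, hz, by rw [ip_e]; exact h2⟩

/-- If all components of `v` are at most `w` then `‖v‖ ≤ w`. -/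
lemma norm_le_of_ip {v : ℂ} {w : ℝ} (h : ∀ θ, ip v (e θ) ≤ w) : ‖v‖ ≤ w := by
  by_cases h0 : v = 0
  · have := h 0
    rw [h0, ip_e] at this
    simp only [Complex.zero_re, zero_mul, Complex.zero_im, add_zero] at this
    rw [h0, norm_zero]
    exact this
  have hn : (‖v‖ : ℝ) ≠ 0 := norm_ne_zero_iff.2 h0
  obtain ⟨θ, hθ⟩ := exists_e (v / ‖v‖) (by
    rw [norm_div, Complex.norm_real, norm_norm, div_self hn])
  have h1 : v = ((‖v‖ : ℝ) : ℂ) * e θ := by
    rw [← hθ]
    have : ((‖v‖ : ℝ) : ℂ) ≠ 0 := by exact_mod_cast hn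
    field_simp
  have h2 : ip v (e θ) = ‖v‖ := by
    conv_lhs => rw [h1]
    rw [ip_smul, ip_e_e, sub_self, Real.cos_zero, mul_one]
  rw [← h2]
  exact h θ

lemma ip_rot_neg (y : ℂ) (β θ : ℝ) : ip (e (-β) * y) (e θ) = ip y (e (θ + β)) := by
  rw [← ip_rot y (-β) (θ + β)]
  congr 2
  ring

lemma norm_add_rot_le {K : Set ℂ} {β w : ℝ} (hK : RCBody K β w) {y z : ℂ} (hy : y ∈ K)
    (hz : z ∈ K) : ‖z + e (-β) * y‖ ≤ w := by
  refine norm_le_of_ip fun θ => ?_
  rw [ip_add_left, ip_rot_neg]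
  have h1 := ip_le_supp hK.isCompact hz θ
  have h2 := ip_le_supp hK.isCompact hy (θ + β)
  linarith [hK.sum θ]

theorem exists_supp_rot {K : Set ℂ} {β w : ℝ} (hK : RCBody K β w) :
    0 ≤ w ∧
    ∃ x : ℝ → ℂ, Continuous x ∧ (∀ θ, x θ ∈ K) ∧ (∀ θ, ip (x θ) (e θ) = supportFn K θ) ∧
      (∀ θ, e (-β) * x (θ + β) = (w : ℂ) * e θ - x θ) ∧
      ∀ θ, ∀ z ∈ K, ‖z - (x θ - (w : ℂ) * e θ)‖ ≤ w := by
  have hw : 0 ≤ w := by
    obtain ⟨z, hz⟩ := hK.nonempty
    exact (norm_nonneg _).trans (norm_add_rot_le hK hz hz)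
  choose x hx hs using fun θ => exists_attain hK.isCompact hK.nonempty θ
  have ho : ∀ θ, e (-β) * x (θ + β) = (w : ℂ) * e θ - x θ := by
    intro θ
    have h1 : ‖x θ + e (-β) * x (θ + β)‖ ≤ w := norm_add_rot_le hK (hx _) (hx _)
    have h2 : ip (x θ + e (-β) * x (θ + β)) (e θ) = w := by
      rw [ip_add_left, ip_rot_neg, hs, hs]
      exact hK.sum θ
    have h4 : ‖(x θ + e (-β) * x (θ + β)) - (w : ℂ) * e θ‖ ^ 2 ≤ 0 := by
      rw [sq_norm_sub, h2]
      have := norm_nonneg (x θ + e (-β) * x (θ + β))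
      nlinarith
    have h5 : ‖(x θ + e (-β) * x (θ + β)) - (w : ℂ) * e θ‖ = 0 := by
      have := sq_nonneg ‖(x θ + e (-β) * x (θ + β)) - (w : ℂ) * e θ‖
      exact pow_eq_zero_iff (two_ne_zero) |>.1 (le_antisymm h4 this)
    have h6 := norm_eq_zero.1 h5
    linear_combination h6
  have hq : ∀ θ, ∀ z ∈ K, ‖z - (x θ - (w : ℂ) * e θ)‖ ≤ w := by
    intro θ z hz
    have h1 : z - (x θ - (w : ℂ) * e θ) = z + e (-β) * x (θ + β) := by
      rw [ho θ]
      ring
    rw [h1]
    exact norm_add_rot_le hK (hx _) hz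
  have hlip : ∀ s t, ‖x s - x t‖ ≤ 2 * w * ‖e s - e t‖ := by
    intro s t
    set v := x s - (x t - (w : ℂ) * e t) with hv
    have h1 : ‖v‖ ≤ w := hq t _ (hx s)
    have h2 : w * Real.cos (s - t) ≤ ip v (e s) := by
      rw [hv, ip_sub_left, hs s, ip_sub_left, ip_smul, ip_e_e]
      have h3 := ip_le_supp hK.isCompact (hx t) s
      have h4 : Real.cos (t - s) = Real.cos (s - t) := by
        rw [← Real.cos_neg, neg_sub]
      rw [h4]
      linarith
    have h5 : ‖v - (w : ℂ) * e s‖ ^ 2 ≤ (w * ‖e s - e t‖) ^ 2 := by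
      rw [sq_norm_sub, mul_pow, sq_norm_e_sub_e]
      have h6 : ‖v‖ ^ 2 ≤ w ^ 2 := by
        have := norm_nonneg v
        nlinarith
      nlinarith
    have h7 : ‖v - (w : ℂ) * e s‖ ≤ w * ‖e s - e t‖ :=
      (sq_le_sq₀ (norm_nonneg _) (mul_nonneg hw (norm_nonneg _))).1 h5
    have h8 : x s - x t = (v - (w : ℂ) * e s) + (w : ℂ) * (e s - e t) := by
      rw [hv]
      ring
    rw [h8]
    refine (norm_add_le _ _).trans ?_
    rw [norm_mul, Complex.norm_real, Real.norm_of_nonneg hw]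
    linarith
  refine ⟨hw, x, ?_, hx, hs, ho, hq⟩
  rw [continuous_iff_continuousAt]
  intro t
  rw [ContinuousAt, tendsto_iff_norm_sub_tendsto_zero]
  have h1 : Filter.Tendsto (fun s => 2 * w * ‖e s - e t‖) (nhds t) (nhds 0) := by
    have h2 : Continuous fun s => 2 * w * ‖e s - e t‖ := by
      have := continuous_e
      fun_prop
    have h3 := h2.tendsto t
    simpa using h3
  exact squeeze_zero (fun s => norm_nonneg _) (fun s => hlip s t) h1

theorem continuous_supportFn_rot {K : Set ℂ} {β w : ℝ} (hK : RCBody K β w) :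
    Continuous (supportFn K) := by
  obtain ⟨-, x, hc, -, hs, -, -⟩ := exists_supp_rot hK
  have h1 : supportFn K = fun θ => ip (x θ) (e θ) := funext fun θ => (hs θ).symm
  rw [h1]
  simp only [ip_e]
  fun_prop

lemma supportFn_periodic (K : Set ℂ) : Function.Periodic (supportFn K) (2 * Real.pi) := by
  intro θ
  simp only [supportFn, Real.cos_add_two_pi, Real.sin_add_two_pi]

/-- A set of perimeter `1` with `h θ + h (θ + β) = w` has `w = 1 / π`. -/
theorem rcBody_of {K : Set ℂ} (hK : IsUnitConvexSet K) (hw : RotationComplementary K) :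
    ∃ β, RCBody K β (1 / Real.pi) := by
  obtain ⟨β, w, hw⟩ := hw
  have h : RCBody K β w := ⟨hK.nonempty, hK.isCompact, hw⟩
  have hc := continuous_supportFn_rot h
  have h1 : IntervalIntegrable (supportFn K) MeasureTheory.volume 0 (2 * Real.pi) :=
    hc.intervalIntegrable _ _
  have h2 : IntervalIntegrable (fun θ => supportFn K (θ + β)) MeasureTheory.volume 0
      (2 * Real.pi) := (hc.comp (continuous_id.add continuous_const)).intervalIntegrable _ _
  have h3 : ∫ θ in (0 : ℝ)..(2 * Real.pi), supportFn K (θ + β) = perimeter K := by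
    rw [intervalIntegral.integral_comp_add_right (fun θ => supportFn K θ) β, perimeter]
    have h4 := (supportFn_periodic K).intervalIntegral_add_eq (0 + β) 0
    rw [zero_add] at h4 ⊢
    rw [zero_add] at h4
    rw [add_comm (2 * Real.pi) β]
    exact h4
  have h5 : ∫ θ in (0 : ℝ)..(2 * Real.pi), (supportFn K θ + supportFn K (θ + β)) =
      2 * Real.pi * w := by
    rw [intervalIntegral.integral_congr (g := fun _ => w) (fun θ _ => hw θ)]
    simp
  rw [intervalIntegral.integral_add h1 h2, h3] at h5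
  have h6 : perimeter K = 1 := hK.perimeter_eq
  rw [← perimeter, h6] at h5
  have h7 : w = 1 / Real.pi := by
    have := Real.pi_pos
    field_simp
    linarith
  exact ⟨β, h7 ▸ h⟩

theorem sector_rot {K : Set ℂ} {β w : ℝ} (hK : RCBody K β w) {γ : ℝ} (h0 : 0 < γ)
    (h1 : γ ≤ Real.pi / 2) :
    ∃ (θ : ℝ) (O : ℂ), ∀ z ∈ K,
      ip (z - O) (e (θ + (Real.pi / 2 + γ))) ≤ 0 ∧
      ip (z - O) (e (θ - (Real.pi / 2 + γ))) ≤ 0 ∧
      ‖z - O‖ ≤ w / 2 * (1 + 1 / Real.sin γ) := by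
  obtain ⟨hw, x, hx, hxK, hs, ho, hq⟩ := exists_supp_rot hK
  have hsin : 0 < Real.sin γ := Real.sin_pos_of_pos_of_lt_pi h0 (by linarith [Real.pi_pos])
  have hsin1 : Real.sin γ ≤ 1 := Real.sin_le_one γ
  obtain ⟨R, hR⟩ : ∃ R, R = w / 2 * (1 + 1 / Real.sin γ) := ⟨_, rfl⟩
  obtain ⟨α, hα⟩ : ∃ α, α = Real.pi / 2 + γ := ⟨_, rfl⟩
  rw [← hR, ← hα]
  have hcos : Real.cos α = -Real.sin γ := by
    rw [hα, add_comm, Real.cos_add_pi_div_two]
  have h2R : (2 * R - w) * Real.cos α = -w := by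
    rw [hcos, hR]
    field_simp
    ring
  have h2R' : (2 * R - w) * Real.cos (-α) = -w := by rw [Real.cos_neg, h2R]
  have hRw : w ≤ R := by
    have h3 : 1 ≤ 1 / Real.sin γ := by
      rw [le_div_iff₀ hsin]
      linarith
    rw [hR]
    nlinarith
  have hcont : ∀ a : ℝ, Continuous fun θ : ℝ =>
      supportFn K (θ + a) - ip (x θ - (R : ℂ) * e θ) (e (θ + a)) := by
    intro a
    have h3 : (fun θ : ℝ => supportFn K (θ + a) - ip (x θ - (R : ℂ) * e θ) (e (θ + a))) =
        fun θ : ℝ => ip (x (θ + a)) (e (θ + a)) - ip (x θ - (R : ℂ) * e θ) (e (θ + a)) := by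
      funext θ
      rw [hs]
    rw [h3]
    have he := continuous_e
    unfold ip
    fun_prop
  have hanti : ∀ a : ℝ, (2 * R - w) * Real.cos a = -w → ∀ θ : ℝ,
      supportFn K (θ + β + a) - ip (x (θ + β) - (R : ℂ) * e (θ + β)) (e (θ + β + a)) =
      -(supportFn K (θ + a) - ip (x θ - (R : ℂ) * e θ) (e (θ + a))) := by
    intro a ha θ
    have h3 : θ + β + a = (θ + a) + β := by ring
    have h4 := hK.sum (θ + a)
    have h5 : ip (x (θ + β)) (e (θ + a + β)) = ip ((w : ℂ) * e θ - x θ) (e (θ + a)) := by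
      rw [← ho θ, ip_rot_neg]
    have h6 : ip (e (θ + β)) (e (θ + a + β)) = Real.cos a := by
      rw [ip_e_e, ← Real.cos_neg]
      congr 1
      ring
    have h7 : ip (e θ) (e (θ + a)) = Real.cos a := by
      rw [ip_e_e, ← Real.cos_neg]
      congr 1
      ring
    rw [h3, ip_sub_left, ip_sub_left, ip_smul, ip_smul, h5, h6, h7, ip_sub_left, ip_smul, h7]
    linarith
  obtain ⟨A, hA⟩ : ∃ A : ℝ → ℝ, A = fun θ => supportFn K (θ + α) -
      ip (x θ - (R : ℂ) * e θ) (e (θ + α)) := ⟨_, rfl⟩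
  obtain ⟨B, hB⟩ : ∃ B : ℝ → ℝ, B = fun θ => supportFn K (θ + (-α)) -
      ip (x θ - (R : ℂ) * e θ) (e (θ + (-α))) := ⟨_, rfl⟩
  have hAc : Continuous A := by
    rw [hA]
    exact hcont α
  have hA' : ∀ θ, A (θ + β) = -A θ := by
    intro θ
    rw [hA]
    exact hanti α h2R θ
  have hB' : ∀ θ, B (θ + β) = -B θ := by
    intro θ
    rw [hB]
    exact hanti (-α) h2R' θ
  have hz : (0 : ℝ) ∈ Set.range A := by
    rcases le_total (A 0) 0 with h | h
    · exact mem_range_of_exists_le_of_exists_ge hAc ⟨0, h⟩ ⟨0 + β, by rw [hA']; linarith⟩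
    · exact mem_range_of_exists_le_of_exists_ge hAc ⟨0 + β, by rw [hA']; linarith⟩ ⟨0, h⟩
  obtain ⟨θ₀, hθ₀⟩ := hz
  obtain ⟨θ, hθA, hθB⟩ : ∃ θ, A θ = 0 ∧ B θ ≤ 0 := by
    rcases le_total (B θ₀) 0 with h | h
    · exact ⟨θ₀, hθ₀, h⟩
    · exact ⟨θ₀ + β, by rw [hA', hθ₀, neg_zero], by rw [hB']; linarith⟩
  rw [hA] at hθA
  rw [hB] at hθB
  simp only at hθA hθB
  refine ⟨θ, x θ - (R : ℂ) * e θ, fun z hzK => ⟨?_, ?_, ?_⟩⟩
  · have h3 := ip_le_supp hK.isCompact hzK (θ + α)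
    rw [ip_sub_left]
    linarith
  · have h3 := ip_le_supp hK.isCompact hzK (θ + (-α))
    rw [sub_eq_add_neg θ α, ip_sub_left]
    linarith
  · have h3 : z - (x θ - (R : ℂ) * e θ) =
        (z - (x θ - (w : ℂ) * e θ)) + ((R - w : ℝ) : ℂ) * e θ := by
      push_cast
      ring
    rw [h3]
    refine (norm_add_le _ _).trans ?_
    rw [norm_mul, norm_e, mul_one, Complex.norm_real, Real.norm_of_nonneg (by linarith)]
    have h4 := hq θ z hzK
    linarith

/-- A body as above placed in the cell of index `j`. -/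
theorem place_sector_rot {n : ℕ} (hn : 2 ≤ n) {β w : ℝ} {K : Set ℂ} (hK : RCBody K β w) (j : ℕ) :
    ∃ g : ℂ → ℂ, IsRigidMotion g ∧ g '' K ⊆ cell n j ∧
      ∀ z ∈ g '' K, ‖z‖ ≤ w / 2 * (1 + 1 / Real.sin (Real.pi / n)) := by
  have hn' : (2 : ℝ) ≤ n := by exact_mod_cast hn
  have hpos : (0 : ℝ) < n := by linarith
  have h0 : 0 < Real.pi / n := div_pos Real.pi_pos hpos
  have h1 : Real.pi / n ≤ Real.pi / 2 :=
    div_le_div_of_nonneg_left Real.pi_pos.le (by norm_num) hn'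
  obtain ⟨θ, O, h⟩ := sector_rot hK h0 h1
  have key : ∀ (z : ℂ) (b : ℝ), ip (e (2 * (Real.pi / n) * j - θ) * (z - O))
      (e (2 * (Real.pi / n) * j + b)) = ip (z - O) (e (θ + b)) := by
    intro z b
    rw [← ip_rot (z - O) (2 * (Real.pi / n) * j - θ) (θ + b)]
    congr 2
    ring
  refine ⟨fun z => e (2 * (Real.pi / n) * j - θ) * (z - O), rigid _ _ (norm_e _), ?_, ?_⟩
  · rintro _ ⟨z, hz, rfl⟩
    obtain ⟨a1, a2, a3⟩ := h z hz
    refine ⟨?_, ?_⟩
    · simp only
      rw [key]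
      exact a1
    · have h5 := key z (-(Real.pi / 2 + Real.pi / n))
      rw [← sub_eq_add_neg, ← sub_eq_add_neg] at h5
      simp only
      rw [h5]
      exact a2
  · rintro _ ⟨z, hz, rfl⟩
    simp only
    rw [norm_mul, norm_e, one_mul]
    exact (h z hz).2.2

theorem ring_rot {n : ℕ} (hn : 2 ≤ n) {w : ℝ} {K : Fin n → Set ℂ}
    (hK : ∀ i, ∃ β, RCBody (K i) β w) :
    Accommodates (closedBall (0 : ℂ) (w / 2 * (1 + 1 / Real.sin (Real.pi / n)))) K := by
  choose β hK using hK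
  choose g hg hcell hball using fun i : Fin n => place_sector_rot hn (hK i) (i : ℕ)
  refine ⟨g, hg, fun i z hz => mem_closedBall_zero_iff.2 (hball i z hz), fun i j hij => ?_⟩
  exact (disjoint_cells hn i.2 j.2 (fun h => hij (Fin.ext h))).mono
    (interior_mono (hcell i)) (interior_mono (hcell j))

end Pool.Agent.Helper57.CW
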