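import Pool.Agent.Helper57.CW.Supp

/-!
# Block CW-3: a body of constant width in a circular sector

Let `0 < γ ≤ π / 2`, `K` a body of constant width `w`, `R = w / 2 * (1 + 1 / sin γ)`,
`α = π / 2 + γ` (so `cos α = - sin γ`). Take `x` from `exists_supp` and put
`O θ = x θ - R * e θ` and `A θ = h (θ + α) - ip (O θ) (e (θ + α))`,
`B θ = h (θ - α) - ip (O θ) (e (θ - α))`, `h = supportFn K`. They are continuous.

1. `A (θ + π) = - A θ` and `B (θ + π) = - B θ`: `h (θ + π + α) = w - h (θ + α)`;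
   `O (θ + π) = x θ - w e θ + R e θ = O θ + (2 R - w) e θ`;
   `e (θ + π + α) = - e (θ + α)`; `ip (e θ) (e (θ + α)) = cos α = - sin γ`; so
   `A (θ + π) + A θ = w - (2 R - w) sin γ = 0`. The same for `B` with `- α`
   (`h (θ + π - α) = w - h (θ - α)`).
2. By the intermediate value theorem on `[0, π]` (`A π = - A 0`) there is `θ₀` with `A θ₀ = 0`.
   If `B θ₀ ≤ 0` take `θ = θ₀`, otherwise take `θ = θ₀ + π`. So some `θ` has `A θ = 0` and
   `B θ ≤ 0`.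
3. For `z ∈ K`: `ip (z - O) (e (θ + α)) ≤ h (θ + α) - ip O (e (θ + α)) = A θ ≤ 0`, the same for
   `- α`; `ip (z - O) (e θ) ≥ R - w`: by `h (θ + π)`:
   `- ip z (e θ) = ip z (e (θ + π)) ≤ h (θ + π) = w - h θ = w - ip (x θ) (e θ)`, and
   `ip O (e θ) = ip (x θ) (e θ) - R`. Finally with `q = x (θ + π) = x θ - w e θ ∈ K`,
   `‖z - O‖ ≤ ‖z - q‖ + ‖q - O‖ ≤ w + ‖(R - w) e θ‖ = w + (R - w) = R` since `R ≥ w`
   (`sin γ ≤ 1`).
-/

namespace Pool.Agent.Helper57.CW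

open Pool.Agent.Helper16.Disk7 Metric Complex

/-- one of the two functions, `α` is the angle to the side -/
private theorem cont2 {K : Set ℂ} (x : ℝ → ℂ) (hx : Continuous x)
    (hs : ∀ θ, ip (x θ) (e θ) = supportFn K θ) (R α : ℝ) :
    Continuous fun θ : ℝ => supportFn K (θ + α) - ip (x θ - (R : ℂ) * e θ) (e (θ + α)) := by
  have h1 : (fun θ : ℝ => supportFn K (θ + α) - ip (x θ - (R : ℂ) * e θ) (e (θ + α))) =
      fun θ : ℝ => ip (x (θ + α)) (e (θ + α)) - ip (x θ - (R : ℂ) * e θ) (e (θ + α)) := by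
    funext θ
    rw [hs]
  rw [h1]
  have he := continuous_e
  unfold ip
  fun_prop

private theorem anti2 {K : Set ℂ} {w : ℝ} (hK : CWBody K w) (x : ℝ → ℂ)
    (ho : ∀ θ, x (θ + Real.pi) = x θ - (w : ℂ) * e θ) (R α : ℝ)
    (hR : (2 * R - w) * Real.cos α = -w) (θ : ℝ) :
    supportFn K (θ + Real.pi + α) - ip (x (θ + Real.pi) - (R : ℂ) * e (θ + Real.pi))
      (e (θ + Real.pi + α)) =
    -(supportFn K (θ + α) - ip (x θ - (R : ℂ) * e θ) (e (θ + α))) := by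
  have h1 : θ + Real.pi + α = (θ + α) + Real.pi := by ring
  have h2 := hK.width (θ + α)
  have h3 : x (θ + Real.pi) - (R : ℂ) * e (θ + Real.pi) =
      (x θ - (R : ℂ) * e θ) - ((w - 2 * R : ℝ) : ℂ) * e θ := by
    rw [ho, e_add_pi]
    push_cast
    ring
  have h4 : ip (e θ) (e (θ + α)) = Real.cos α := by
    rw [ip_e_e, ← Real.cos_neg]
    congr 1
    ring
  rw [h3, h1, e_add_pi, ip_neg_right, ip_sub_left, ip_smul, h4]
  linarith

theorem sector {K : Set ℂ} {w : ℝ} (hK : CWBody K w) {γ : ℝ} (h0 : 0 < γ)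
    (h1 : γ ≤ Real.pi / 2) :
    ∃ (θ : ℝ) (O : ℂ), ∀ z ∈ K,
      ip (z - O) (e (θ + (Real.pi / 2 + γ))) ≤ 0 ∧
      ip (z - O) (e (θ - (Real.pi / 2 + γ))) ≤ 0 ∧
      ‖z - O‖ ≤ w / 2 * (1 + 1 / Real.sin γ) ∧
      w / 2 * (1 + 1 / Real.sin γ) - w ≤ ip (z - O) (e θ) := by
  obtain ⟨hw, hdist, x, hx, hxK, hs, ho⟩ := exists_supp hK
  have hsin : 0 < Real.sin γ := Real.sin_pos_of_pos_of_lt_pi h0 (by linarith [Real.pi_pos])
  have hsin1 : Real.sin γ ≤ 1 := Real.sin_le_one γ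
  obtain ⟨R, hR⟩ : ∃ R, R = w / 2 * (1 + 1 / Real.sin γ) := ⟨_, rfl⟩
  obtain ⟨α, hα⟩ : ∃ α, α = Real.pi / 2 + γ := ⟨_, rfl⟩
  rw [← hR, ← hα]
  have hcos : Real.cos α = -Real.sin γ := by
    rw [hα, add_comm, Real.cos_add_pi_div_two]
  have h2R : (2 * R - w) * Real.cos α = -w := by
    rw [hcos, hR]
    field_simp
    ring
  have h2R' : (2 * R - w) * Real.cos (-α) = -w := by rw [Real.cos_neg, h2R]
  have hRw : w ≤ R := by
    have h3 : 1 ≤ 1 / Real.sin γ := by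
      rw [le_div_iff₀ hsin]
      linarith
    rw [hR]
    nlinarith
  obtain ⟨A, hA⟩ : ∃ A : ℝ → ℝ, A = fun θ => supportFn K (θ + α) - ip (x θ - (R : ℂ) * e θ) (e (θ + α)) :=
    ⟨_, rfl⟩
  obtain ⟨B, hB⟩ : ∃ B : ℝ → ℝ, B = fun θ => supportFn K (θ + (-α)) -
      ip (x θ - (R : ℂ) * e θ) (e (θ + (-α))) := ⟨_, rfl⟩
  have hAc : Continuous A := by
    rw [hA]
    exact cont2 x hx hs R α
  have hA' : ∀ θ, A (θ + Real.pi) = -A θ := by
    intro θ
    rw [hA]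
    exact anti2 hK x ho R α h2R θ
  have hB' : ∀ θ, B (θ + Real.pi) = -B θ := by
    intro θ
    rw [hB]
    exact anti2 hK x ho R (-α) h2R' θ
  have hz : (0 : ℝ) ∈ Set.range A := by
    rcases le_total (A 0) 0 with h | h
    · exact mem_range_of_exists_le_of_exists_ge hAc ⟨0, h⟩ ⟨0 + Real.pi, by rw [hA']; linarith⟩
    · exact mem_range_of_exists_le_of_exists_ge hAc ⟨0 + Real.pi, by rw [hA']; linarith⟩ ⟨0, h⟩
  obtain ⟨θ₀, hθ₀⟩ := hz
  obtain ⟨θ, hθA, hθB⟩ : ∃ θ, A θ = 0 ∧ B θ ≤ 0 := by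
    rcases le_total (B θ₀) 0 with h | h
    · exact ⟨θ₀, hθ₀, h⟩
    · exact ⟨θ₀ + Real.pi, by rw [hA', hθ₀, neg_zero], by rw [hB']; linarith⟩
  rw [hA] at hθA
  rw [hB] at hθB
  simp only at hθA hθB
  refine ⟨θ, x θ - (R : ℂ) * e θ, fun z hzK => ⟨?_, ?_, ?_, ?_⟩⟩
  · have h3 := ip_le_supp hK.isCompact hzK (θ + α)
    rw [ip_sub_left]
    linarith
  · have h3 := ip_le_supp hK.isCompact hzK (θ + (-α))
    rw [sub_eq_add_neg θ α, ip_sub_left]
    linarith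
  · have h3 : z - (x θ - (R : ℂ) * e θ) = (z - x (θ + Real.pi)) + ((R - w : ℝ) : ℂ) * e θ := by
      rw [ho]
      push_cast
      ring
    rw [h3]
    refine (norm_add_le _ _).trans ?_
    rw [norm_mul, norm_e, mul_one, Complex.norm_real, Real.norm_of_nonneg (by linarith)]
    have h4 := hdist (x (θ + Real.pi)) (hxK _) z hzK
    linarith
  · have h3 := ip_le_supp hK.isCompact hzK (θ + Real.pi)
    rw [e_add_pi, ip_neg_right] at h3
    have h4 := hK.width θ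
    rw [ip_sub_left, ip_sub_left, ip_smul, ip_e_e, sub_self, Real.cos_zero, hs]
    linarith

end Pool.Agent.Helper57.CW
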