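import Pool.Agent.Helper57.CW.Defs

/-!
# Block CW-1: support points of a body of constant width

`K` nonempty compact with `h θ + h (θ + π) = w`, where `h = supportFn K`.

1. `ip_le_supp`: `ip z (e θ) ≤ h θ` for `z` in `K` (bounded above by compactness, `le_csSup`;
   rewrite with `ip_e`).
2. The supremum is attained (`IsCompact.exists_isMaxOn`, or `IsCompact.sSup_mem`): choose
   `x θ ∈ K` with `ip (x θ) (e θ) = h θ`.
3. `norm_sub_le`: for `y, z` in `K`, `‖z - y‖ ≤ w`: trivial if `z = y` (need `0 ≤ w`: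
   `w = h 0 + h π ≥ ip z (e 0) + ip z (e π) = 0`), otherwise
   `z - y = ‖z - y‖ * e θ` (`exists_e` of `(z - y) / ‖z - y‖`),
   `‖z - y‖ = ip (z - y) (e θ) = ip z (e θ) + ip y (e (θ + π)) ≤ h θ + h (θ + π) = w`.
4. Opposite points: `v = x θ - x (θ + π)` has `‖v‖ ≤ w` and `ip v (e θ) = w`, so
   `‖v - w e θ‖² = ‖v‖² - 2 w ip v (e θ) + w² ≤ 0`.
5. Continuity of `x`. For `s, t`: with `q = x (t + π)`, `x t = q + w e t`; `v = x s - q` has
   `‖v‖ ≤ w` and `ip v (e s) ≥ ip (x t - q) (e s) = w cos (s - t)`, so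
   `‖v - w e s‖² ≤ 2 w² (1 - cos (s - t)) = w² ‖e s - e t‖²`, hence
   `‖x s - x t‖ ≤ ‖v - w e s‖ + w ‖e s - e t‖ ≤ 2 w ‖e s - e t‖`, and `e` is continuous.
6. `h θ = ip (x θ) (e θ)` is then continuous.
-/

namespace Pool.Agent.Helper57.CW

open Pool.Agent.Helper16.Disk7 Metric Complex

theorem ip_le_supp {K : Set ℂ} (hc : IsCompact K) {z : ℂ} (hz : z ∈ K) (θ : ℝ) :
    ip z (e θ) ≤ supportFn K θ := by
  have hb : BddAbove ((fun z : ℂ => z.re * Real.cos θ + z.im * Real.sin θ) '' K) :=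
    (hc.image (by fun_prop)).bddAbove
  rw [supportFn, ip_e]
  exact le_csSup hb ⟨z, hz, rfl⟩

private lemma exists_attain26 {K : Set ℂ} (hc : IsCompact K) (hne : K.Nonempty) (θ : ℝ) :
    ∃ z ∈ K, ip z (e θ) = supportFn K θ := by
  have h1 : IsCompact ((fun z : ℂ => z.re * Real.cos θ + z.im * Real.sin θ) '' K) :=
    hc.image (by fun_prop)
  obtain ⟨z, hz, h2⟩ := h1.sSup_mem (hne.image _)
  exact ⟨z, hz, by rw [ip_e]; exact h2⟩

private lemma sq_norm_sub26 (v : ℂ) (r θ : ℝ) :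
    ‖v - (r : ℂ) * e θ‖ ^ 2 = ‖v‖ ^ 2 - 2 * r * ip v (e θ) + r ^ 2 := by
  rw [Complex.sq_norm, Complex.sq_norm, Complex.normSq_apply, Complex.normSq_apply, ip_e]
  simp only [Complex.sub_re, Complex.sub_im, Complex.mul_re, Complex.mul_im, Complex.ofReal_re,
    Complex.ofReal_im, e_re, e_im]
  have h := Real.sin_sq_add_cos_sq θ
  linear_combination r ^ 2 * h

private lemma sq_norm_e_sub_e26 (s t : ℝ) : ‖e s - e t‖ ^ 2 = 2 - 2 * Real.cos (s - t) := by
  have h := sq_norm_sub26 (e s) 1 t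
  rw [Complex.ofReal_one, one_mul, norm_e, ip_e_e] at h
  rw [h]
  ring

private lemma width_nonneg26 {K : Set ℂ} {w : ℝ} (hK : CWBody K w) : 0 ≤ w := by
  obtain ⟨z, hz⟩ := hK.nonempty
  have h1 := ip_le_supp hK.isCompact hz 0
  have h2 := ip_le_supp hK.isCompact hz (0 + Real.pi)
  rw [e_add_pi, ip_neg_right] at h2
  linarith [hK.width 0]

private lemma norm_sub_le26 {K : Set ℂ} {w : ℝ} (hK : CWBody K w) (y : ℂ) (hy : y ∈ K) (z : ℂ)
    (hz : z ∈ K) : ‖z - y‖ ≤ w := by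
  by_cases h0 : z - y = 0
  · rw [h0, norm_zero]
    exact width_nonneg26 hK
  have hn : (‖z - y‖ : ℝ) ≠ 0 := norm_ne_zero_iff.2 h0
  obtain ⟨θ, hθ⟩ := exists_e ((z - y) / ‖z - y‖) (by
    rw [norm_div, Complex.norm_real, norm_norm, div_self hn])
  have h1 : z - y = ((‖z - y‖ : ℝ) : ℂ) * e θ := by
    rw [← hθ]
    have : ((‖z - y‖ : ℝ) : ℂ) ≠ 0 := by exact_mod_cast hn
    field_simp
  have h2 : ip (z - y) (e θ) = ‖z - y‖ := by
    conv_lhs => rw [h1]
    rw [ip_smul, ip_e_e, sub_self, Real.cos_zero, mul_one]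
  have h3 := ip_le_supp hK.isCompact hz θ
  have h4 := ip_le_supp hK.isCompact hy (θ + Real.pi)
  rw [e_add_pi, ip_neg_right] at h4
  rw [ip_sub_left] at h2
  linarith [hK.width θ]

private lemma lip_aux26 {K : Set ℂ} {w : ℝ} (hK : CWBody K w) (x : ℝ → ℂ)
    (hx : ∀ θ, x θ ∈ K) (hs : ∀ θ, ip (x θ) (e θ) = supportFn K θ)
    (ho : ∀ θ, x (θ + Real.pi) = x θ - (w : ℂ) * e θ) (s t : ℝ) :
    ‖x s - x t‖ ≤ 2 * w * ‖e s - e t‖ := by
  have hw := width_nonneg26 hK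
  set v := x s - x (t + Real.pi) with hv
  have h1 : ‖v‖ ≤ w := norm_sub_le26 hK _ (hx _) _ (hx _)
  have h2 : w * Real.cos (s - t) ≤ ip v (e s) := by
    rw [hv, ip_sub_left, hs s, ho t, ip_sub_left, ip_smul, ip_e_e]
    have h3 := ip_le_supp hK.isCompact (hx t) s
    have h4 : Real.cos (t - s) = Real.cos (s - t) := by
      rw [← Real.cos_neg, neg_sub]
    rw [h4]
    linarith
  have h5 : ‖v - (w : ℂ) * e s‖ ^ 2 ≤ (w * ‖e s - e t‖) ^ 2 := by
    rw [sq_norm_sub26, mul_pow, sq_norm_e_sub_e26]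
    have h6 : ‖v‖ ^ 2 ≤ w ^ 2 := by
      have := norm_nonneg v
      nlinarith
    nlinarith
  have h7 : ‖v - (w : ℂ) * e s‖ ≤ w * ‖e s - e t‖ :=
    by
    exact (sq_le_sq₀ (norm_nonneg _) (mul_nonneg hw (norm_nonneg _))).1 h5
  have h8 : x s - x t = (v - (w : ℂ) * e s) + (w : ℂ) * (e s - e t) := by
    rw [hv, ho t]
    ring
  rw [h8]
  refine (norm_add_le _ _).trans ?_
  rw [norm_mul, Complex.norm_real, Real.norm_of_nonneg hw]
  linarith

theorem exists_supp {K : Set ℂ} {w : ℝ} (hK : CWBody K w) :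
    0 ≤ w ∧ (∀ y ∈ K, ∀ z ∈ K, ‖z - y‖ ≤ w) ∧
    ∃ x : ℝ → ℂ, Continuous x ∧ (∀ θ, x θ ∈ K) ∧ (∀ θ, ip (x θ) (e θ) = supportFn K θ) ∧
      ∀ θ, x (θ + Real.pi) = x θ - (w : ℂ) * e θ := by
  have hw := width_nonneg26 hK
  choose x hx hs using fun θ => exists_attain26 hK.isCompact hK.nonempty θ
  have ho : ∀ θ, x (θ + Real.pi) = x θ - (w : ℂ) * e θ := by
    intro θ
    have h1 : ‖x θ - x (θ + Real.pi)‖ ≤ w := norm_sub_le26 hK _ (hx _) _ (hx _)
    have h2 : ip (x θ - x (θ + Real.pi)) (e θ) = w := by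
      have h3 := hs (θ + Real.pi)
      rw [e_add_pi, ip_neg_right] at h3
      rw [ip_sub_left, hs θ]
      linarith [hK.width θ]
    have h4 : ‖(x θ - x (θ + Real.pi)) - (w : ℂ) * e θ‖ ^ 2 ≤ 0 := by
      rw [sq_norm_sub26, h2]
      have := norm_nonneg (x θ - x (θ + Real.pi))
      nlinarith
    have h5 : ‖(x θ - x (θ + Real.pi)) - (w : ℂ) * e θ‖ = 0 := by
      have := sq_nonneg ‖(x θ - x (θ + Real.pi)) - (w : ℂ) * e θ‖
      exact pow_eq_zero_iff (two_ne_zero) |>.1 (le_antisymm h4 this)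
    have h6 := norm_eq_zero.1 h5
    linear_combination -h6
  refine ⟨hw, norm_sub_le26 hK, x, ?_, hx, hs, ho⟩
  rw [continuous_iff_continuousAt]
  intro t
  rw [ContinuousAt, tendsto_iff_norm_sub_tendsto_zero]
  have h1 : Filter.Tendsto (fun s => 2 * w * ‖e s - e t‖) (nhds t) (nhds 0) := by
    have h2 : Continuous fun s => 2 * w * ‖e s - e t‖ := by
      have := continuous_e
      fun_prop
    have h3 := h2.tendsto t
    simpa using h3
  exact squeeze_zero (fun s => norm_nonneg _) (fun s => lip_aux26 hK x hx hs ho s t) h1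

theorem continuous_supportFn {K : Set ℂ} {w : ℝ} (hK : CWBody K w) :
    Continuous (supportFn K) := by
  obtain ⟨-, -, x, hc, -, hs, -⟩ := exists_supp hK
  have h1 : supportFn K = fun θ => ip (x θ) (e θ) := funext fun θ => (hs θ).symm
  rw [h1]
  simp only [ip_e]
  fun_prop

end Pool.Agent.Helper57.CW
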