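import Pool.Agent.Helper57.CW.Supp

/-!
# Block CW-2: Barbier's theorem for the Cauchy perimeter

`∫_0^{2π} h = ∫_0^π h + ∫_π^{2π} h = ∫_0^π (h θ + h (θ + π)) = π w`, so a set of perimeter `1`
and constant width has width `1 / π`. Integrability: `continuous_supportFn`.
-/

namespace Pool.Agent.Helper57.CW

open Pool.Agent.Helper16.Disk7 Metric Complex

theorem perimeter_eq {K : Set ℂ} {w : ℝ} (hK : CWBody K w) : perimeter K = Real.pi * w := by
  have hc := continuous_supportFn hK
  have h1 : IntervalIntegrable (supportFn K) MeasureTheory.volume 0 Real.pi :=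
    hc.intervalIntegrable _ _
  have h2 : IntervalIntegrable (supportFn K) MeasureTheory.volume Real.pi (2 * Real.pi) :=
    hc.intervalIntegrable _ _
  rw [perimeter, ← intervalIntegral.integral_add_adjacent_intervals h1 h2]
  have h3 : ∫ θ in Real.pi..(2 * Real.pi), supportFn K θ =
      ∫ θ in (0 : ℝ)..Real.pi, supportFn K (θ + Real.pi) := by
    rw [intervalIntegral.integral_comp_add_right (fun θ => supportFn K θ) Real.pi]
    congr 1
    · ring
    · ring
  have h4 : IntervalIntegrable (fun θ => supportFn K (θ + Real.pi)) MeasureTheory.volume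
      0 Real.pi := (hc.comp (continuous_id.add continuous_const)).intervalIntegrable _ _
  rw [h3, ← intervalIntegral.integral_add h1 h4]
  rw [intervalIntegral.integral_congr (g := fun _ => w) (fun θ _ => hK.width θ)]
  simp

theorem cwBody_of {K : Set ℂ} (hK : IsUnitConvexSet K) (hw : ConstantWidth K) :
    CWBody K (1 / Real.pi) := by
  obtain ⟨w, hw⟩ := hw
  have h : CWBody K w := ⟨hK.nonempty, hK.isCompact, hw⟩
  have h1 := perimeter_eq h
  rw [hK.perimeter_eq] at h1
  have h2 : w = 1 / Real.pi := by
    field_simp
    linarith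
  rw [← h2]
  exact h

end Pool.Agent.Helper57.CW
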